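import Pool.Agent.H309.RE.Step
set_option autoImplicit false

/-! Approximation in `L³` of the square by step functions, uniformly on compact sets. -/

namespace Pool.Agent.H309.RE

open MeasureTheory Set
open scoped ENNReal NNReal

theorem vol_sq_le {a b l : ℝ} (hl : 0 < l) (hl1 : l ≤ 1) : volume (sq a b l) ≤ 1 := by
  have h : (volume : Measure (ℝ × ℝ)) (sq a b l) = ENNReal.ofReal l * ENNReal.ofReal l := by
    rw [sq, Measure.volume_eq_prod, Measure.prod_prod, Real.volume_Ico, Real.volume_Ico]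
    congr 2 <;> ring
  rw [h, ← ENNReal.ofReal_mul hl.le]
  rw [ENNReal.ofReal_le_one]
  nlinarith

theorem B_trunc {a b l : ℝ} (hl : 0 < l) (n : ℕ) (ω : Om) :
    dist (B a b l (trunc n ω)) (B a b l ω) ≤ l * (2 ^ n)⁻¹ := by
  rw [dist_eq_norm, Prod.norm_def]
  have h2 : ∀ (c : ℝ) (y z : ℕ → Fin 2), (∀ i < n, y i = z i) →
      ‖(c + l * Real.ofDigits y) - (c + l * Real.ofDigits z)‖ ≤ l * (2 ^ n)⁻¹ := by
    intro c y z h
    have h3 := Real.abs_ofDigits_sub_ofDigits_le h
    have h4 : (c + l * Real.ofDigits y) - (c + l * Real.ofDigits z) =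
        l * (Real.ofDigits y - Real.ofDigits z) := by ring
    rw [h4, norm_mul, Real.norm_of_nonneg hl.le, Real.norm_eq_abs]
    push_cast at h3
    exact mul_le_mul_of_nonneg_left h3 hl.le
  refine max_le ?_ ?_
  · refine h2 a _ _ fun i hi => ?_
    simp [trunc, hi]
  · refine h2 b _ _ fun i hi => ?_
    simp [trunc, hi]

theorem approx {a b l : ℝ} (hl : 0 < l) (hl1 : l ≤ 1) {f : ℝ × ℝ → ℂ}
    (hf : MemLp f 3 (volume.restrict (sq a b l))) {η : ℝ} (hη : 0 < η) :
    ∃ n, ∃ g, Step a b l n g ∧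
      eLpNorm (fun x => f x - g x) 3 (volume.restrict (sq a b l)) ≤ ENNReal.ofReal η := by
  have : IsFiniteMeasure (volume.restrict (sq a b l)) :=
    ⟨by rw [Measure.restrict_apply_univ]; exact (vol_sq_le hl hl1).trans_lt ENNReal.one_lt_top⟩
  have hη2 : ENNReal.ofReal (η / 2) ≠ 0 := by simpa using hη
  obtain ⟨h, hcs, hfh, hcont, -⟩ := hf.exists_hasCompactSupport_eLpNorm_sub_le
    (by norm_num : (3 : ℝ≥0∞) ≠ ∞) hη2
  have huc := hcs.uniformContinuous_of_continuous hcont
  obtain ⟨ρ, hρ, hu⟩ := Metric.uniformContinuous_iff.1 huc (η / 2) (by positivity)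
  obtain ⟨n, hn⟩ := exists_pow_lt_of_lt_one (y := (1 / 2 : ℝ)) (show 0 < ρ / l by positivity)
    (by norm_num)
  have hn' : l * (2 ^ n)⁻¹ < ρ := by
    rw [lt_div_iff₀ hl] at hn
    have h1 : (1 / 2 : ℝ) ^ n = (2 ^ n)⁻¹ := by rw [one_div, inv_pow]
    rw [h1] at hn
    linarith
  refine ⟨n, fun x => h (B a b l (trunc n (D a b l x))), ⟨fun ω => h (B a b l ω),
    hcont.measurable.comp (continuous_B a b l).measurable, fun x => rfl⟩, ?_⟩
  have hsum : (fun x => f x - h (B a b l (trunc n (D a b l x)))) =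
      (f - h) + (fun x => h x - h (B a b l (trunc n (D a b l x)))) := by
    funext x; simp
  have hmeas : Measurable (fun x => h x - h (B a b l (trunc n (D a b l x)))) :=
    hcont.measurable.sub (hcont.measurable.comp ((continuous_B a b l).measurable.comp
      ((measurable_trunc n).comp (measurable_D a b l))))
  rw [hsum]
  refine (eLpNorm_add_le (hf.1.sub hcont.aestronglyMeasurable) hmeas.aestronglyMeasurable
    (by norm_num)).trans ?_
  have h2 : eLpNorm (fun x => h x - h (B a b l (trunc n (D a b l x)))) 3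
      (volume.restrict (sq a b l)) ≤ ENNReal.ofReal (η / 2) := by
    have h3 := eLpNorm_le_of_ae_bound (p := 3) (μ := volume.restrict (sq a b l))
      (f := fun x => h x - h (B a b l (trunc n (D a b l x)))) (C := η / 2) (by
        filter_upwards [ae_restrict_mem (measurableSet_sq a b l)] with x hx
        rw [← dist_eq_norm]
        refine (hu ?_).le
        calc dist x (B a b l (trunc n (D a b l x)))
            = dist (B a b l (trunc n (D a b l x))) (B a b l (D a b l x)) := by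
              rw [B_D hl hx, dist_comm]
          _ ≤ l * (2 ^ n)⁻¹ := B_trunc hl n _
          _ < ρ := hn')
    refine h3.trans ?_
    rw [Measure.restrict_apply_univ]
    calc volume (sq a b l) ^ (3 : ℝ≥0∞).toReal⁻¹ * ENNReal.ofReal (η / 2)
        ≤ 1 ^ (3 : ℝ≥0∞).toReal⁻¹ * ENNReal.ofReal (η / 2) := by
          gcongr
          exact vol_sq_le hl hl1
      _ = ENNReal.ofReal (η / 2) := by rw [ENNReal.one_rpow, one_mul]
  calc _ ≤ ENNReal.ofReal (η / 2) + ENNReal.ofReal (η / 2) := add_le_add hfh h2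
    _ = ENNReal.ofReal η := by rw [← ENNReal.ofReal_add (by positivity) (by positivity)]; congr 1; ring

instance fact3 : Fact ((1 : ℝ≥0∞) ≤ 3) := ⟨by norm_num⟩

/-- A set of functions which is totally bounded in `L³` of the square. -/
def TB (a b l : ℝ) (K : Set (ℝ × ℝ → ℂ)) : Prop :=
  (∀ f ∈ K, MemLp f 3 (volume.restrict (sq a b l))) ∧
  ∀ η : ℝ, 0 < η → ∃ t : Finset (ℝ × ℝ → ℂ), (∀ g ∈ t, MemLp g 3 (volume.restrict (sq a b l))) ∧
    ∀ f ∈ K, ∃ g ∈ t, eLpNorm (fun x => f x - g x) 3 (volume.restrict (sq a b l)) ≤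
      ENNReal.ofReal η

theorem approx_tb {a b l : ℝ} (hl : 0 < l) (hl1 : l ≤ 1)
    {K : Set (ℝ × ℝ → ℂ)} (hK : TB a b l K) {η : ℝ} (hη : 0 < η) :
    ∃ n, ∀ f ∈ K, ∃ g, Step a b l n g ∧
      eLpNorm (fun x => f x - g x) 3 (volume.restrict (sq a b l)) ≤ ENNReal.ofReal η := by
  classical
  obtain ⟨t, ht, hcov⟩ := hK.2 (η / 2) (by positivity)
  have hch : ∀ y : ℝ × ℝ → ℂ, ∃ n, ∃ g, y ∈ t → Step a b l n g ∧
      eLpNorm (fun x => y x - g x) 3 (volume.restrict (sq a b l)) ≤ ENNReal.ofReal (η / 2) := by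
    intro y
    by_cases hy : y ∈ t
    · obtain ⟨n, g, h⟩ := approx hl hl1 (ht y hy) (show 0 < η / 2 by positivity)
      exact ⟨n, g, fun _ => h⟩
    · exact ⟨0, 0, fun h => absurd h hy⟩
  choose n g hg using hch
  refine ⟨t.sup n, fun f hf => ?_⟩
  obtain ⟨y, hy, h1⟩ := hcov f hf
  have hg1 := (hg y hy).1
  have hg2 := (hg y hy).2
  refine ⟨g y, hg1.mono (Finset.le_sup (f := n) hy), ?_⟩
  have hsum : (fun x => f x - g y x) = (fun x => f x - y x) + (fun x => y x - g y x) := by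
    funext x; simp
  rw [hsum]
  refine (eLpNorm_add_le ((hK.1 f hf).1.sub (ht y hy).1)
    ((ht y hy).1.sub hg1.measurable.aestronglyMeasurable) (by norm_num)).trans ?_
  calc _ ≤ ENNReal.ofReal (η / 2) + ENNReal.ofReal (η / 2) := add_le_add h1 hg2
    _ = ENNReal.ofReal η := by rw [← ENNReal.ofReal_add (by positivity) (by positivity)]; congr 1; ring

end Pool.Agent.H309.RE
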