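import Mathlib
set_option autoImplicit false

/-! Binary digits: the digit sequence of a uniformly distributed point of `[0,1)` has the law of
a sequence of independent fair coins. -/

namespace Pool.Agent.H309.RE

open MeasureTheory Set
open scoped ENNReal NNReal

/-- The fair coin. -/
noncomputable def coin : Measure (Fin 2) := (2 : ℝ≥0∞)⁻¹ • Measure.count

instance : IsProbabilityMeasure coin := by
  constructor
  rw [coin, Measure.smul_apply, Measure.count_univ]
  simp only [ENat.card_eq_coe_fintype_card, Fintype.card_fin, smul_eq_mul]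
  exact ENNReal.inv_mul_cancel (by norm_num) (by norm_num)

theorem coin_singleton (c : Fin 2) : coin {c} = (2 : ℝ≥0∞)⁻¹ := by
  rw [coin, Measure.smul_apply, Measure.count_singleton, smul_eq_mul, mul_one]

/-- The binary digits. -/
noncomputable def dig (x : ℝ) : ℕ → Fin 2 := Real.digits x 2

theorem dig_val (x : ℝ) (n : ℕ) : (dig x n : ℕ) = ⌊x * 2 ^ (n + 1)⌋₊ % 2 := by
  unfold dig Real.digits
  simp [Fin.ofNat]

theorem measurable_dig : Measurable dig := by
  refine measurable_pi_iff.2 fun n => ?_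
  have h1 : Measurable (fun x : ℝ => Fin.ofNat 2 ⌊x * ((2 : ℕ) : ℝ) ^ (n + 1)⌋₊) := by
    have h2 : Measurable (fun k : ℕ => Fin.ofNat 2 k) := measurable_from_top
    exact h2.comp (Nat.measurable_floor.comp (measurable_id.mul_const _))
  exact h1

/-- The integer with the binary digits `a 0, …, a (n-1)`. -/
def num (a : ℕ → Fin 2) : ℕ → ℕ
  | 0 => 0
  | n + 1 => 2 * num a n + a n

theorem num_lt (a : ℕ → Fin 2) (n : ℕ) : num a n < 2 ^ n := by
  induction n with
  | zero => simp [num]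
  | succ n ih =>
    have := (a n).isLt
    rw [num, pow_succ]
    omega

theorem floor_two_mul {y : ℝ} (hy : 0 ≤ y) : ⌊2 * y⌋₊ / 2 = ⌊y⌋₊ := by
  have h := Nat.floor_div_natCast (2 * y) 2
  rw [← h]
  congr 1
  push_cast
  ring

theorem dig_iff {x : ℝ} (hx : x ∈ Ico (0 : ℝ) 1) (a : ℕ → Fin 2) (n : ℕ) :
    (∀ i < n, dig x i = a i) ↔ ⌊2 ^ n * x⌋₊ = num a n := by
  induction n with
  | zero =>
    simp only [not_lt_zero, IsEmpty.forall_iff, implies_true, pow_zero, one_mul, num, true_iff]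
    exact Nat.floor_eq_zero.2 hx.2
  | succ n ih =>
    have h1 : ⌊(2 : ℝ) ^ (n + 1) * x⌋₊ = 2 * ⌊(2 : ℝ) ^ n * x⌋₊ + (dig x n : ℕ) := by
      have h2 := floor_two_mul (y := 2 ^ n * x) (by have := hx.1; positivity)
      have h3 : (2 : ℝ) * (2 ^ n * x) = 2 ^ (n + 1) * x := by ring
      rw [h3] at h2
      rw [dig_val, mul_comm x, ← h2]
      omega
    constructor
    · intro h
      have h4 := ih.1 fun i hi => h i (Nat.lt_succ_of_lt hi)
      rw [h1, num, h4, h n (Nat.lt_succ_self n)]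
    · intro h
      rw [h1, num] at h
      have ha := (a n).isLt
      have hd := (dig x n).isLt
      have h5 : ⌊(2 : ℝ) ^ n * x⌋₊ = num a n := by omega
      have h6 : (dig x n : ℕ) = (a n : ℕ) := by omega
      intro i hi
      rcases Nat.lt_succ_iff_lt_or_eq.1 hi with h7 | h7
      · exact ih.2 h5 i h7
      · rw [h7]
        exact Fin.ext h6

theorem cyl_eq (a : ℕ → Fin 2) (n : ℕ) :
    {x : ℝ | ∀ i < n, dig x i = a i} ∩ Ico (0 : ℝ) 1 =
      Ico ((num a n : ℝ) / 2 ^ n) (((num a n : ℝ) + 1) / 2 ^ n) := by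
  have h2 : (0 : ℝ) < 2 ^ n := by positivity
  have h3 : ((num a n : ℝ) + 1) ≤ 2 ^ n := by
    have := num_lt a n
    exact_mod_cast this
  ext x
  simp only [mem_inter_iff, mem_setOf_eq, mem_Ico]
  constructor
  · rintro ⟨h, hx⟩
    have h1 := (dig_iff hx a n).1 h
    have h4 := (Nat.floor_eq_iff (by have := hx.1; positivity)).1 h1
    rw [div_le_iff₀ h2, lt_div_iff₀ h2]
    constructor <;> nlinarith [h4.1, h4.2]
  · rintro ⟨ha, hb⟩
    rw [div_le_iff₀ h2] at ha
    rw [lt_div_iff₀ h2] at hb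
    have hx0 : 0 ≤ x := by
      by_contra hc
      push Not at hc
      have : (0 : ℝ) ≤ num a n := Nat.cast_nonneg _
      nlinarith
    have hx1 : x < 1 := by
      by_contra hc
      push Not at hc
      nlinarith
    refine ⟨(dig_iff ⟨hx0, hx1⟩ a n).2 ?_, hx0, hx1⟩
    rw [Nat.floor_eq_iff (by positivity)]
    constructor <;> linarith

/-- The sequences which begin with `a 0, …, a (n-1)`. -/
def cyl (a : ℕ → Fin 2) (n : ℕ) : Set (ℕ → Fin 2) := {ω | ∀ i < n, ω i = a i}

theorem measurableSet_cyl (a : ℕ → Fin 2) (n : ℕ) : MeasurableSet (cyl a n) := by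
  have h : cyl a n = ⋂ i, ⋂ (_ : i < n), (fun ω : ℕ → Fin 2 => ω i) ⁻¹' {a i} := by
    ext ω; simp [cyl]
  rw [h]
  exact MeasurableSet.iInter fun i => MeasurableSet.iInter fun _ =>
    measurable_pi_apply i (measurableSet_singleton _)

theorem cyl_pi : IsPiSystem {s : Set (ℕ → Fin 2) | ∃ a n, s = cyl a n} := by
  rintro s ⟨a, n, rfl⟩ t ⟨b, m, rfl⟩ ⟨ω, hω⟩
  refine ⟨ω, max n m, ?_⟩
  ext ζ
  simp only [cyl, mem_inter_iff, mem_setOf_eq, lt_max_iff] at *
  constructor
  · rintro ⟨h1, h2⟩ i hi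
    rcases hi with hi | hi
    · rw [h1 i hi, hω.1 i hi]
    · rw [h2 i hi, hω.2 i hi]
  · intro h
    exact ⟨fun i hi => by rw [h i (Or.inl hi), hω.1 i hi],
      fun i hi => by rw [h i (Or.inr hi), hω.2 i hi]⟩

theorem cyl_gen : (MeasurableSpace.pi : MeasurableSpace (ℕ → Fin 2)) =
    MeasurableSpace.generateFrom {s : Set (ℕ → Fin 2) | ∃ a n, s = cyl a n} := by
  apply le_antisymm
  · refine iSup_le fun i => ?_
    rw [← measurable_iff_comap_le]
    refine @measurable_to_countable' (Fin 2) (ℕ → Fin 2) _ _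
      (MeasurableSpace.generateFrom {s : Set (ℕ → Fin 2) | ∃ a n, s = cyl a n}) _ ?_
    intro c
    have h : (fun ω : ℕ → Fin 2 => ω i) ⁻¹' {c} =
        ⋃ a : {a : Fin (i + 1) → Fin 2 // a (Fin.last i) = c},
          cyl (fun k => if h : k < i + 1 then a.1 ⟨k, h⟩ else 0) (i + 1) := by
      ext ω
      simp only [mem_preimage, mem_singleton_iff, cyl, mem_iUnion, mem_setOf_eq]
      constructor
      · intro h
        refine ⟨⟨fun k => ω k, by simpa using h⟩, ?_⟩
        intro k hk
        simp [hk]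
      · rintro ⟨a, ha⟩
        have h1 := ha i (Nat.lt_succ_self i)
        rw [h1]
        simp only [Nat.lt_succ_self, dite_true]
        exact a.2
    rw [h]
    refine MeasurableSet.iUnion fun a => ?_
    exact MeasurableSpace.measurableSet_generateFrom ⟨_, _, rfl⟩
  · refine MeasurableSpace.generateFrom_le ?_
    rintro s ⟨a, n, rfl⟩
    exact measurableSet_cyl a n

theorem coins_cyl (a : ℕ → Fin 2) (n : ℕ) :
    Measure.infinitePi (fun _ : ℕ => coin) (cyl a n) = ((2 : ℝ≥0∞) ^ n)⁻¹ := by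
  have h : cyl a n = Set.pi (Finset.range n : Set ℕ) fun i => {a i} := by
    ext ω; simp [cyl, Set.mem_pi]
  rw [h, Measure.infinitePi_pi _ (fun i _ => measurableSet_singleton _)]
  simp only [coin_singleton, Finset.prod_const, Finset.card_range]
  rw [ENNReal.inv_pow]

/-- **The law of the digits.** -/
theorem map_dig : (volume.restrict (Ico (0 : ℝ) 1)).map dig =
    Measure.infinitePi (fun _ : ℕ => coin) := by
  haveI : IsProbabilityMeasure (volume.restrict (Ico (0 : ℝ) 1)) :=
    ⟨by rw [Measure.restrict_apply_univ, Real.volume_Ico]; simp⟩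
  haveI : IsProbabilityMeasure ((volume.restrict (Ico (0 : ℝ) 1)).map dig) :=
    Measure.isProbabilityMeasure_map measurable_dig.aemeasurable
  refine ext_of_generate_finite _ cyl_gen cyl_pi ?_ ?_
  · rintro s ⟨a, n, rfl⟩
    rw [Measure.map_apply measurable_dig (measurableSet_cyl a n), coins_cyl,
      Measure.restrict_apply (measurable_dig (measurableSet_cyl a n))]
    have h : dig ⁻¹' cyl a n ∩ Ico (0 : ℝ) 1 =
      Ico ((num a n : ℝ) / 2 ^ n) (((num a n : ℝ) + 1) / 2 ^ n) := cyl_eq a n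
    rw [h, Real.volume_Ico]
    have h2 : ((num a n : ℝ) + 1) / 2 ^ n - (num a n : ℝ) / 2 ^ n = ((2 : ℝ) ^ n)⁻¹ := by
      field_simp
      ring
    rw [h2, ENNReal.ofReal_inv_of_pos (by positivity), ENNReal.ofReal_pow (by norm_num)]
    simp
  · rw [measure_univ, measure_univ]

end Pool.Agent.H309.RE
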