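import Pool.Agent.H309.RE.Sharp
set_option autoImplicit false

/-! Finite dimensional spaces in place of compact sets, and the final form of the constants. -/

namespace Pool.Agent.H309.RE

open MeasureTheory Set Filter
open scoped ENNReal NNReal Topology

open Pool.Agent.Results.MP_5ab805_an

theorem rpow_bound {κ x : ℝ} (hκ1 : κ ≤ 1) (hx : 0 ≤ x) :
    ENNReal.ofReal ((2 * x) ^ κ) ≤ 2 * ENNReal.ofReal (x ^ κ) := by
  have h2 : (2 : ℝ≥0∞) = ENNReal.ofReal 2 := by simp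
  rw [h2, ← ENNReal.ofReal_mul (by norm_num)]
  apply ENNReal.ofReal_le_ofReal
  rw [Real.mul_rpow (by norm_num) hx]
  have h1 : (2 : ℝ) ^ κ ≤ 2 := by
    calc (2 : ℝ) ^ κ ≤ 2 ^ (1 : ℝ) := Real.rpow_le_rpow_of_exponent_le (by norm_num) hκ1
      _ = 2 := Real.rpow_one _
  exact mul_le_mul_of_nonneg_right h1 (Real.rpow_nonneg hx _)

/-- Homogeneity. -/
theorem ext_smul (t : ℂ) (F : ℝ × ℝ → ℂ) (ξ : (ℝ × ℝ) × ℝ) :
    LowRank.ext (fun x => t * F x) ξ = t * LowRank.ext F ξ := by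
  unfold LowRank.ext
  rw [← integral_const_mul]
  congr 1
  funext x
  ring

theorem ext_congr {F G : ℝ × ℝ → ℂ} (h : F =ᵐ[volume] G) : LowRank.ext F = LowRank.ext G := by
  funext ξ
  unfold LowRank.ext
  refine integral_congr_ae ?_
  filter_upwards [h] with x hx
  rw [hx]

theorem ext_zero {F : ℝ × ℝ → ℂ} (h : F =ᵐ[volume] fun _ => 0) : LowRank.ext F = 0 := by
  rw [ext_congr h]
  funext ξ
  unfold LowRank.ext
  simp

theorem homog {a b l : ℝ} {T : ℝ × ℝ → ℝ × ℝ}
    (hT : MeasurePreserving T (volume.restrict (sq a b l)) (volume.restrict (sq a b l)))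
    (q : ℝ≥0∞) (M : ℝ≥0∞) {f : ℝ × ℝ → ℂ} (hf : MemLp f 3 (volume.restrict (sq a b l)))
    (h : ∀ t : ℂ, eLpNorm (fun x => t * f x) 3 (volume.restrict (sq a b l)) ≤ 1 →
      eLpNorm (LowRank.ext ((sq a b l).indicator (fun x => t * f (T x)))) q volume ≤
      M * (eLpNorm (fun x => t * f x) 3 (volume.restrict (sq a b l)) + 1)) :
    eLpNorm (LowRank.ext ((sq a b l).indicator (fun x => f (T x)))) q volume ≤
      2 * M * eLpNorm f 3 (volume.restrict (sq a b l)) := by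
  by_cases h0 : eLpNorm f 3 (volume.restrict (sq a b l)) = 0
  · have h1 : f =ᵐ[volume.restrict (sq a b l)] 0 :=
      (eLpNorm_eq_zero_iff hf.1 (by norm_num)).1 h0
    have h2 : (sq a b l).indicator (fun x => f (T x)) =ᵐ[volume] fun _ => 0 := by
      have h3 := (ae_restrict_iff' (measurableSet_sq a b l)).1 (hT.quasiMeasurePreserving.ae h1)
      filter_upwards [h3] with x hx
      by_cases hxs : x ∈ sq a b l
      · rw [indicator_of_mem hxs, hx hxs]
        rfl
      · rw [indicator_of_notMem hxs]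
    rw [ext_zero h2, eLpNorm_zero]
    exact zero_le
  · obtain ⟨N, hN⟩ : ∃ N : ℝ, N = (eLpNorm f 3 (volume.restrict (sq a b l))).toReal := ⟨_, rfl⟩
    have hNe : ENNReal.ofReal N = eLpNorm f 3 (volume.restrict (sq a b l)) := by
      rw [hN, ENNReal.ofReal_toReal hf.2.ne]
    have hN0 : 0 < N := by rw [hN]; exact ENNReal.toReal_pos h0 hf.2.ne
    have hNc : (N : ℂ) ≠ 0 := by exact_mod_cast hN0.ne'
    have h1 : eLpNorm (fun x => (N : ℂ)⁻¹ * f x) 3 (volume.restrict (sq a b l)) = 1 := by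
      have h2 : (fun x => (N : ℂ)⁻¹ * f x) = (N : ℂ)⁻¹ • f := rfl
      rw [h2, eLpNorm_const_smul, ← hNe, ← ofReal_norm, norm_inv, Complex.norm_real,
        Real.norm_of_nonneg hN0.le, ← ENNReal.ofReal_mul (by positivity),
        inv_mul_cancel₀ hN0.ne', ENNReal.ofReal_one]
    have h3 := h (N : ℂ)⁻¹ h1.le
    rw [h1, one_add_one_eq_two] at h3
    have h4 : LowRank.ext ((sq a b l).indicator (fun x => f (T x))) =
        (N : ℂ) • LowRank.ext ((sq a b l).indicator (fun x => (N : ℂ)⁻¹ * f (T x))) := by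
      funext ξ
      rw [Pi.smul_apply, smul_eq_mul, ← ext_smul]
      congr 1
      funext x
      by_cases hxs : x ∈ sq a b l
      · rw [indicator_of_mem hxs, indicator_of_mem hxs, ← mul_assoc, mul_inv_cancel₀ hNc, one_mul]
      · rw [indicator_of_notMem hxs, indicator_of_notMem hxs, mul_zero]
    rw [h4, eLpNorm_const_smul, ← hNe, ← ofReal_norm, Complex.norm_real,
      Real.norm_of_nonneg hN0.le]
    calc ENNReal.ofReal N * eLpNorm (LowRank.ext ((sq a b l).indicator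
          (fun x => (N : ℂ)⁻¹ * f (T x)))) q volume ≤ ENNReal.ofReal N * (M * 2) := by
          gcongr
      _ = _ := by ring

theorem compact_ball {a b l : ℝ}
    (W : Submodule ℂ (Lp ℂ 3 ((volume : Measure (ℝ × ℝ)).restrict (sq a b l))))
    [FiniteDimensional ℂ W] :
    IsCompact {f : Lp ℂ 3 ((volume : Measure (ℝ × ℝ)).restrict (sq a b l)) |
      f ∈ W ∧ ‖f‖ ≤ 1} := by
  have : ProperSpace W := FiniteDimensional.proper_rclike ℂ W
  have h1 : IsCompact (Metric.closedBall (0 : W) 1) := isCompact_closedBall 0 1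
  have h2 := h1.image continuous_subtype_val
  have h3 : {f : Lp ℂ 3 ((volume : Measure (ℝ × ℝ)).restrict (sq a b l)) | f ∈ W ∧ ‖f‖ ≤ 1} =
      Subtype.val '' (Metric.closedBall (0 : W) 1) := by
    ext f
    constructor
    · rintro ⟨hf, hf1⟩
      refine ⟨⟨f, hf⟩, ?_, rfl⟩
      rw [mem_closedBall_zero_iff]
      exact hf1
    · rintro ⟨⟨g, hg⟩, hg1, rfl⟩
      rw [mem_closedBall_zero_iff] at hg1
      exact ⟨hg, hg1⟩
  rw [h3]
  exact h2

theorem coeFn_comb {a b l : ℝ} {w : ℕ → ℝ × ℝ → ℂ}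
    (hw : ∀ i, MemLp (w i) 3 (volume.restrict (sq a b l))) (c : ℕ → ℂ) (k : ℕ) :
    ((∑ i ∈ Finset.range k, c i • (hw i).toLp (w i) :
      Lp ℂ 3 ((volume : Measure (ℝ × ℝ)).restrict (sq a b l))) : ℝ × ℝ → ℂ)
      =ᵐ[volume.restrict (sq a b l)] fun x => ∑ i ∈ Finset.range k, c i * w i x := by
  induction k with
  | zero =>
    simp only [Finset.range_zero, Finset.sum_empty]
    exact Lp.coeFn_zero _ _ _
  | succ k ih =>
    rw [Finset.sum_range_succ]
    have h1 := Lp.coeFn_add (∑ i ∈ Finset.range k, c i • (hw i).toLp (w i))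
      (c k • (hw k).toLp (w k))
    have h2 := Lp.coeFn_smul (c k) ((hw k).toLp (w k))
    have h3 := (hw k).coeFn_toLp
    filter_upwards [h1, h2, h3, ih] with x e1 e2 e3 e4
    rw [e1, Pi.add_apply, e2, Pi.smul_apply, e3, e4, Finset.sum_range_succ, smul_eq_mul]

/-- The unit ball of a finite dimensional space of functions. -/
theorem tb_span {a b l : ℝ} {w : ℕ → ℝ × ℝ → ℂ}
    (hw : ∀ i, MemLp (w i) 3 (volume.restrict (sq a b l))) (k : ℕ) :
    TB a b l {f | (∃ c : ℕ → ℂ, f = fun x => ∑ i ∈ Finset.range k, c i * w i x) ∧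
      eLpNorm f 3 (volume.restrict (sq a b l)) ≤ 1} := by
  classical
  have hmem : ∀ c : ℕ → ℂ, MemLp (fun x => ∑ i ∈ Finset.range k, c i * w i x) 3
      (volume.restrict (sq a b l)) := fun c =>
    memLp_finsetSum _ fun i _ => (hw i).const_mul (c i)
  refine ⟨?_, ?_⟩
  · rintro f ⟨⟨c, rfl⟩, -⟩
    exact hmem c
  intro η hη
  set W : Submodule ℂ (Lp ℂ 3 ((volume : Measure (ℝ × ℝ)).restrict (sq a b l))) :=
    Submodule.span ℂ ((fun i => (hw i).toLp (w i)) '' (Finset.range k : Set ℕ)) with hW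
  have : FiniteDimensional ℂ W :=
    FiniteDimensional.span_of_finite ℂ ((Finset.range k).finite_toSet.image _)
  obtain ⟨t, -, htf, hcov⟩ := (compact_ball W).finite_cover_balls hη
  refine ⟨htf.toFinset.image (fun y : Lp ℂ 3 ((volume : Measure (ℝ × ℝ)).restrict (sq a b l)) =>
    (y : ℝ × ℝ → ℂ)), ?_, ?_⟩
  · intro g hg
    obtain ⟨y, -, rfl⟩ := Finset.mem_image.1 hg
    exact Lp.memLp y
  · rintro f ⟨⟨c, rfl⟩, hf1⟩
    obtain ⟨F, hF⟩ : ∃ F : Lp ℂ 3 ((volume : Measure (ℝ × ℝ)).restrict (sq a b l)),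
      F = ∑ i ∈ Finset.range k, c i • (hw i).toLp (w i) := ⟨_, rfl⟩
    have h1 := coeFn_comb hw c k
    rw [← hF] at h1
    have hFW : F ∈ W := by
      rw [hF]
      exact W.sum_mem fun i hi => W.smul_mem _ (Submodule.subset_span ⟨i, hi, rfl⟩)
    have hF1 : ‖F‖ ≤ 1 := by
      rw [← ENNReal.ofReal_le_one, ofReal_norm, Lp.enorm_def, eLpNorm_congr_ae h1]
      exact hf1
    obtain ⟨y, hy, hFy⟩ := mem_iUnion₂.1 (hcov ⟨hFW, hF1⟩)
    refine ⟨y, Finset.mem_image.2 ⟨y, htf.mem_toFinset.2 hy, rfl⟩, ?_⟩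
    have h2 : edist F y < ENNReal.ofReal η := by
      rw [edist_dist]
      exact (ENNReal.ofReal_lt_ofReal_iff hη).2 (Metric.mem_ball.1 hFy)
    rw [Lp.edist_def] at h2
    refine le_trans (le_of_eq ?_) h2.le
    refine eLpNorm_congr_ae ?_
    filter_upwards [h1] with x hx
    rw [Pi.sub_apply, hx]

end Pool.Agent.H309.RE
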