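import Pool.Agent.H309.RE.One
set_option autoImplicit false

/-! The rearrangement for a sequence of compact sets. -/

namespace Pool.Agent.H309.RE

open MeasureTheory Set Filter
open scoped ENNReal NNReal Topology

open Pool.Agent.Results.MP_5ab805_an.LowRank (ext J RankLE)

theorem exists_scale {l δ : ℝ} (hδ : 0 < δ) (hδl : δ ≤ l) :
    ∃ N : ℕ, l * (2 ^ N)⁻¹ ≤ δ ∧ (2 : ℝ) ^ N ≤ 2 * (l / δ) := by
  have h1 : 1 ≤ l / δ := (one_le_div hδ).2 hδl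
  set z := ⌊l / δ⌋₊ with hz
  have hz1 : 1 ≤ z := Nat.le_floor (by exact_mod_cast h1)
  have hz2 : (z : ℝ) ≤ l / δ := Nat.floor_le (by linarith)
  have hz3 : l / δ < z + 1 := Nat.lt_floor_add_one _
  refine ⟨Nat.log 2 z + 1, ?_, ?_⟩
  · have h2 : z + 1 ≤ 2 ^ (Nat.log 2 z + 1) := Nat.lt_pow_succ_log_self (by norm_num) z
    have h3 : (z : ℝ) + 1 ≤ 2 ^ (Nat.log 2 z + 1) := by exact_mod_cast h2
    have h4 : l / δ ≤ 2 ^ (Nat.log 2 z + 1) := by linarith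
    rw [div_le_iff₀ hδ] at h4
    rw [mul_inv_le_iff₀ (by positivity)]
    linarith
  · have h2 : 2 ^ (Nat.log 2 z) ≤ z := Nat.pow_log_le_self 2 (by omega)
    have h3 : (2 : ℝ) ^ (Nat.log 2 z) ≤ z := by exact_mod_cast h2
    rw [pow_succ]
    linarith

theorem exists_slow (A : ℕ → ℝ) (hA1 : ∀ k, 1 ≤ A k) (hA : Tendsto A atTop atTop) :
    ∃ m : ℕ → ℕ, (∀ k, (2 : ℝ) ^ (m k) ≤ A k) ∧ ∀ j, {k | m k ≤ j}.Finite := by
  refine ⟨fun k => Nat.log 2 ⌊A k⌋₊, ?_, ?_⟩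
  · intro k
    have h1 : 1 ≤ ⌊A k⌋₊ := Nat.le_floor (by exact_mod_cast hA1 k)
    have h2 : 2 ^ (Nat.log 2 ⌊A k⌋₊) ≤ ⌊A k⌋₊ := Nat.pow_log_le_self 2 (by omega)
    have h3 : (2 : ℝ) ^ (Nat.log 2 ⌊A k⌋₊) ≤ (⌊A k⌋₊ : ℝ) := by exact_mod_cast h2
    exact h3.trans (Nat.floor_le (by linarith [hA1 k]))
  · intro j
    obtain ⟨k₀, hk₀⟩ := eventually_atTop.1 (hA.eventually_ge_atTop ((2 : ℝ) ^ (j + 1)))
    refine (Set.finite_lt_nat k₀).subset ?_
    intro k hk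
    simp only [mem_ofPred_eq] at hk ⊢
    by_contra hcon
    push Not at hcon
    have h1 := hk₀ k hcon
    have h2 : 2 ^ (j + 1) ≤ ⌊A k⌋₊ := Nat.le_floor (by push_cast; exact h1)
    have h3 : j + 1 ≤ Nat.log 2 ⌊A k⌋₊ := Nat.le_log_of_pow_le (by norm_num) h2
    omega

theorem rearrange {a b l : ℝ} (ha : -(1 / 2) ≤ a) (ha' : a + l ≤ 1 / 2) (hb : -(1 / 2) ≤ b)
    (hb' : b + l ≤ 1 / 2) (hl : 0 < l) {δ : ℝ} (hδ : 0 < δ) (hδl : δ ≤ l)
    (K : ℕ → Set (ℝ × ℝ → ℂ)) (hK : ∀ k, TB a b l (K k)) (A ε : ℕ → ℝ) (hA1 : ∀ k, 1 ≤ A k)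
    (hA : Tendsto A atTop atTop) (hε : ∀ k, 0 < ε k) :
    ∃ e : Equiv.Perm (ℕ ⊕ ℕ), (∀ x ∈ sq a b l, ‖T a b l e x - x‖ ≤ δ) ∧
      ∀ (q κ : ℝ), 0 < κ → κ ≤ 1 → ∀ C : ℝ≥0,
      (∀ (r : ℕ → ℕ) (c s : ℕ → ℝ) (h : ℕ → ℝ × ℝ → ℂ) (f : ℝ × ℝ → ℂ),
        (∀ k, 1 ≤ r k) → (∀ k, c k ^ 2 + s k ^ 2 = 1) →
        (∀ k, RankLE (r k) (c k) (s k) (h k)) → (∀ᵐ x, f x = ∑' k, h k x) →
        eLpNorm (ext f) (ENNReal.ofReal q) volume ≤
          C * ∑' k, ENNReal.ofReal ((r k : ℝ) ^ κ) * eLpNorm (h k) 3 volume) →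
      ∀ k, ∀ f ∈ K k,
        eLpNorm (ext ((sq a b l).indicator (fun x => f (T a b l e x)))) (ENNReal.ofReal q) volume ≤
          C * (ENNReal.ofReal ((2 * (l / δ) * A k) ^ κ) *
            (eLpNorm f 3 (volume.restrict (sq a b l)) + ENNReal.ofReal (ε k))) := by
  classical
  have hl1 : l ≤ 1 := by linarith
  obtain ⟨N, hN1, hN2⟩ := exists_scale hδ hδl
  obtain ⟨m, hm1, hm2⟩ := exists_slow A hA1 hA
  have happ : ∀ k j : ℕ, ∃ n, ∀ f ∈ K k, ∃ g, Step a b l n g ∧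
      eLpNorm (fun x => f x - g x) 3 (volume.restrict (sq a b l)) ≤
        ENNReal.ofReal (ε k / 8 ^ (j + 1)) := fun k j =>
    approx_tb hl hl1 (hK k) (div_pos (hε k) (by positivity))
  choose ν hν using happ
  set bb : ℕ → ℕ := fun j => (hm2 j).toFinset.sup (fun k => ν k j) with hbb
  have hνb : ∀ k j, m k ≤ j → ν k j ≤ bb j := by
    intro k j hkj
    have h1 : k ∈ (hm2 j).toFinset := by simpa using hkj
    exact Finset.le_sup (f := fun k => ν k j) h1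
  set n : ℕ → ℕ := fun j => N + ∑ i ∈ Finset.range (j + 1), (bb i + 1) with hn
  have hnm : StrictMono n := by
    refine strictMono_nat_of_lt_succ fun j => ?_
    simp only [hn]
    rw [Finset.sum_range_succ _ (j + 1)]
    omega
  have hnN : N ≤ n 0 := by simp only [hn]; omega
  have hbn : ∀ j, bb j ≤ n j := by
    intro j
    simp only [hn]
    rw [Finset.sum_range_succ _ j]
    omega
  obtain ⟨e, he1, he2⟩ := perm_exists N n hnm hnN
  refine ⟨e, fun x hx => (T_near hl e N he1 hx).trans hN1, ?_⟩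
  intro q κ hκ hκ1 C hC k f hf
  have hch : ∀ i, ∃ g, Step a b l (ν k (m k + i)) g ∧
      eLpNorm (fun x => f x - g x) 3 (volume.restrict (sq a b l)) ≤
        ENNReal.ofReal (ε k / 8 ^ (m k + i + 1)) := fun i => hν k (m k + i) f hf
  choose G hG1 hG2 using hch
  have hmain := one_function ha ha' hb hb' hl hl1 (e := e) (N + m k) (fun i => n (m k + i))
    (fun i j hij => hnm.monotone (by omega))
    (fun i => by
      have h1 : Good e (n (m k + i)) (N + (m k + i)) := he2 (m k + i)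
      rwa [← Nat.add_assoc] at h1)
    ((hK k).1 f hf) (hε k) G
    (fun i => (hG1 i).mono ((hνb k (m k + i) (by omega)).trans (hbn _)))
    (fun i => (hG2 i).trans (ENNReal.ofReal_le_ofReal (by
      have h0 := (hε k).le
      gcongr
      · norm_num
      · omega)))
    q κ hκ1 C hC
  refine hmain.trans ?_
  gcongr
  calc (2 : ℝ) ^ (N + m k) = 2 ^ N * 2 ^ (m k) := pow_add _ _ _
    _ ≤ (2 * (l / δ)) * A k := by
        have h0 : 0 < l / δ := div_pos hl hδ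
        exact mul_le_mul hN2 (hm1 k) (by positivity) (by positivity)

end Pool.Agent.H309.RE
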