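import Pool.Agent.H309.RE.Dig
set_option autoImplicit false

/-! Permutations of the binary digits as measure preserving maps of a square. -/

namespace Pool.Agent.H309.RE

open MeasureTheory Set
open scoped ENNReal NNReal

/-- Two sequences of binary digits. -/
abbrev Om := (ℕ ⊕ ℕ) → Fin 2

/-- Independent fair coins. -/
noncomputable def P2 : Measure Om := Measure.infinitePi (fun _ : ℕ ⊕ ℕ => coin)

instance : IsProbabilityMeasure P2 := by unfold P2; infer_instance

/-- The square with the corner `(a, b)` and the side `l`. -/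
def sq (a b l : ℝ) : Set (ℝ × ℝ) := Ico a (a + l) ×ˢ Ico b (b + l)

/-- The digits of a point relative to an interval. -/
noncomputable def dg (a l u : ℝ) : ℕ → Fin 2 := dig ((u - a) / l)

theorem measurable_dg (a l : ℝ) : Measurable (dg a l) :=
  measurable_dig.comp ((measurable_id.sub_const a).div_const l)

theorem map_dg {a l : ℝ} (hl : 0 < l) : (volume.restrict (Ico a (a + l))).map (dg a l) =
    ENNReal.ofReal l • Measure.infinitePi (fun _ : ℕ => coin) := by
  have h1 : (volume.restrict (Ico a (a + l))).map (fun u : ℝ => (u - a) / l) =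
      ENNReal.ofReal l • volume.restrict (Ico (0 : ℝ) 1) := by
    have hm : Measurable (fun u : ℝ => (u - a) / l) := (measurable_id.sub_const a).div_const l
    have h2 : (volume : Measure ℝ).map (fun u : ℝ => (u - a) / l) = ENNReal.ofReal l • volume := by
      have h3 : (fun u : ℝ => (u - a) / l) = (fun u => l⁻¹ * u) ∘ (fun u => u + (-a)) := by
        ext u; simp only [Function.comp]; ring
      rw [h3, ← Measure.map_map (measurable_const_mul _) (measurable_add_const _),
        map_add_right_eq_self, Real.map_volume_mul_left (inv_ne_zero hl.ne')]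
      congr 1
      rw [inv_inv, abs_of_pos hl]
    have h4 : Ico a (a + l) = (fun u : ℝ => (u - a) / l) ⁻¹' Ico (0 : ℝ) 1 := by
      ext u
      simp only [mem_Ico, mem_preimage]
      rw [div_lt_iff₀ hl, le_div_iff₀ hl]
      constructor
      · rintro ⟨h, h'⟩; constructor <;> linarith
      · rintro ⟨h, h'⟩; constructor <;> linarith
    rw [h4, ← Measure.restrict_map hm measurableSet_Ico, h2, Measure.restrict_smul]
  have h5 : dg a l = dig ∘ (fun u : ℝ => (u - a) / l) := rfl
  have hm' : Measurable (fun u : ℝ => (u - a) / l) := (measurable_id.sub_const a).div_const l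
  rw [h5, ← Measure.map_map measurable_dig hm', h1, Measure.map_smul, map_dig]

/-- The digits of a point of the square. -/
noncomputable def D (a b l : ℝ) (x : ℝ × ℝ) : Om := Sum.elim (dg a l x.1) (dg b l x.2)

theorem measurable_D (a b l : ℝ) : Measurable (D a b l) := by
  refine measurable_pi_iff.2 fun i => ?_
  rcases i with i | i
  · exact (measurable_pi_apply i).comp ((measurable_dg a l).comp measurable_fst)
  · exact (measurable_pi_apply i).comp ((measurable_dg b l).comp measurable_snd)

/-- The point with given digits. -/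
noncomputable def B (a b l : ℝ) (ω : Om) : ℝ × ℝ :=
  (a + l * Real.ofDigits (fun n => ω (Sum.inl n)), b + l * Real.ofDigits (fun n => ω (Sum.inr n)))

theorem continuous_B (a b l : ℝ) : Continuous (B a b l) := by
  unfold B
  refine Continuous.prodMk ?_ ?_
  · exact continuous_const.add (continuous_const.mul (Real.continuous_ofDigits.comp
      (continuous_pi fun n => continuous_apply _)))
  · exact continuous_const.add (continuous_const.mul (Real.continuous_ofDigits.comp
      (continuous_pi fun n => continuous_apply _)))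

theorem B_D {a b l : ℝ} (hl : 0 < l) {x : ℝ × ℝ} (hx : x ∈ sq a b l) : B a b l (D a b l x) = x := by
  have h1 : ∀ {c u : ℝ}, u ∈ Ico c (c + l) → c + l * Real.ofDigits (dg c l u) = u := by
    intro c u hu
    have h2 : (u - c) / l ∈ Ico (0 : ℝ) 1 := by
      constructor
      · exact div_nonneg (by linarith [hu.1]) hl.le
      · rw [div_lt_one hl]; linarith [hu.2]
    have h3 : Real.ofDigits (dg c l u) = (u - c) / l := Real.ofDigits_digits (by norm_num) h2
    rw [h3]
    field_simp
    ring
  unfold B D
  exact Prod.ext (h1 hx.1) (h1 hx.2)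

theorem map_D {a b l : ℝ} (hl : 0 < l) : (volume.restrict (sq a b l)).map (D a b l) =
    (ENNReal.ofReal l * ENNReal.ofReal l) • P2 := by
  set c : ℝ≥0∞ := ENNReal.ofReal l * ENNReal.ofReal l with hc
  have hl0 : ENNReal.ofReal l ≠ 0 := by simpa using hl
  have hc0 : c ≠ 0 := mul_ne_zero hl0 hl0
  have hct : c ≠ ∞ := ENNReal.mul_ne_top ENNReal.ofReal_ne_top ENNReal.ofReal_ne_top
  have key : c⁻¹ • (volume.restrict (sq a b l)).map (D a b l) = P2 := by
    refine Measure.eq_infinitePi _ fun s t ht => ?_
    have hm : MeasurableSet (Set.pi (s : Set (ℕ ⊕ ℕ)) t) :=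
      MeasurableSet.pi s.countable_toSet fun i _ => ht i
    rw [Measure.smul_apply, Measure.map_apply (measurable_D a b l) hm]
    have h1 : D a b l ⁻¹' Set.pi (s : Set (ℕ ⊕ ℕ)) t =
        (dg a l ⁻¹' Set.pi (s.toLeft : Set ℕ) (fun i => t (Sum.inl i))) ×ˢ
        (dg b l ⁻¹' Set.pi (s.toRight : Set ℕ) (fun i => t (Sum.inr i))) := by
      ext x
      simp only [D, mem_preimage, Set.mem_pi, Finset.mem_coe, mem_prod, Finset.mem_toLeft,
        Finset.mem_toRight]
      constructor
      · intro h
        exact ⟨fun i hi => h _ hi, fun i hi => h _ hi⟩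
      · rintro ⟨h, h'⟩ i hi
        rcases i with i | i
        · exact h i hi
        · exact h' i hi
    have hvol : (volume.restrict (sq a b l)) =
        (volume.restrict (Ico a (a + l))).prod (volume.restrict (Ico b (b + l))) := by
      rw [sq, Measure.prod_restrict]
      rfl
    have hma : MeasurableSet (Set.pi (s.toLeft : Set ℕ) (fun i => t (Sum.inl i))) :=
      MeasurableSet.pi s.toLeft.countable_toSet fun i _ => ht _
    have hmb : MeasurableSet (Set.pi (s.toRight : Set ℕ) (fun i => t (Sum.inr i))) :=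
      MeasurableSet.pi s.toRight.countable_toSet fun i _ => ht _
    rw [h1, hvol, Measure.prod_prod, ← Measure.map_apply (measurable_dg a l) hma,
      ← Measure.map_apply (measurable_dg b l) hmb, map_dg hl, map_dg hl, Measure.smul_apply,
      Measure.smul_apply, Measure.infinitePi_pi _ (fun i _ => ht _),
      Measure.infinitePi_pi _ (fun i _ => ht _)]
    simp only [smul_eq_mul]
    rw [← Finset.toLeft_disjSum_toRight (u := s), Finset.prod_disjSum, Finset.toLeft_disjSum,
      Finset.toRight_disjSum]
    set A := ∏ i ∈ s.toLeft, coin (t (Sum.inl i))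
    set A' := ∏ i ∈ s.toRight, coin (t (Sum.inr i))
    have h3 : ENNReal.ofReal l * A * (ENNReal.ofReal l * A') = c * (A * A') := by rw [hc]; ring
    rw [h3, ← mul_assoc, ENNReal.inv_mul_cancel hc0 hct, one_mul]
  rw [← key, smul_smul, ENNReal.mul_inv_cancel hc0 hct, one_smul]

/-- Permutation of the digits. -/
def perm (e : Equiv.Perm (ℕ ⊕ ℕ)) (ω : Om) : Om := fun i => ω (e i)

theorem measurable_perm (e : Equiv.Perm (ℕ ⊕ ℕ)) : Measurable (perm e) :=
  measurable_pi_iff.2 fun i => measurable_pi_apply (e i)

theorem map_perm (e : Equiv.Perm (ℕ ⊕ ℕ)) : P2.map (perm e) = P2 := by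
  refine Measure.eq_infinitePi _ fun s t ht => ?_
  have hm : MeasurableSet (Set.pi (s : Set (ℕ ⊕ ℕ)) t) :=
    MeasurableSet.pi s.countable_toSet fun i _ => ht i
  rw [Measure.map_apply (measurable_perm e) hm]
  have h1 : perm e ⁻¹' Set.pi (s : Set (ℕ ⊕ ℕ)) t =
      Set.pi ((s.map e.toEmbedding : Finset (ℕ ⊕ ℕ)) : Set (ℕ ⊕ ℕ)) (fun i => t (e.symm i)) := by
    ext ω
    simp only [perm, mem_preimage, Set.mem_pi, Finset.mem_coe, Finset.mem_map_equiv]
    constructor
    · intro h i hi
      have h2 := h _ hi
      rwa [Equiv.apply_symm_apply] at h2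
    · intro h i hi
      have h2 := h (e i) (by rwa [Equiv.symm_apply_apply])
      rwa [Equiv.symm_apply_apply] at h2
  rw [h1, P2, Measure.infinitePi_pi _ (fun i _ => ht _), Finset.prod_map]
  simp

/-- The map of the square which permutes the digits. -/
noncomputable def T (a b l : ℝ) (e : Equiv.Perm (ℕ ⊕ ℕ)) (x : ℝ × ℝ) : ℝ × ℝ :=
  B a b l (perm e (D a b l x))

theorem measurable_T (a b l : ℝ) (e : Equiv.Perm (ℕ ⊕ ℕ)) : Measurable (T a b l e) :=
  (continuous_B a b l).measurable.comp ((measurable_perm e).comp (measurable_D a b l))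

theorem measurableSet_sq (a b l : ℝ) : MeasurableSet (sq a b l) :=
  measurableSet_Ico.prod measurableSet_Ico

theorem map_B {a b l : ℝ} (hl : 0 < l) :
    ((ENNReal.ofReal l * ENNReal.ofReal l) • P2).map (B a b l) = volume.restrict (sq a b l) := by
  rw [← map_D hl, Measure.map_map (continuous_B a b l).measurable (measurable_D a b l)]
  have h : (B a b l ∘ D a b l) =ᵐ[volume.restrict (sq a b l)] id := by
    filter_upwards [ae_restrict_mem (measurableSet_sq a b l)] with x hx
    exact B_D hl hx
  rw [Measure.map_congr h, Measure.map_id]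

theorem T_mp {a b l : ℝ} (hl : 0 < l) (e : Equiv.Perm (ℕ ⊕ ℕ)) :
    MeasurePreserving (T a b l e) (volume.restrict (sq a b l)) (volume.restrict (sq a b l)) := by
  refine ⟨measurable_T a b l e, ?_⟩
  have h : T a b l e = B a b l ∘ (perm e ∘ D a b l) := rfl
  rw [h, ← Measure.map_map (continuous_B a b l).measurable
    ((measurable_perm e).comp (measurable_D a b l)),
    ← Measure.map_map (measurable_perm e) (measurable_D a b l), map_D hl, Measure.map_smul,
    map_perm, map_B hl]

/-- Almost every sequence of digits consists of the digits of its point. -/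
theorem ae_D_B {a b l : ℝ} (hl : 0 < l) : ∀ᵐ ω ∂P2, D a b l (B a b l ω) = ω := by
  have hl0 : ENNReal.ofReal l ≠ 0 := by simpa using hl
  have hc0 : ENNReal.ofReal l * ENNReal.ofReal l ≠ 0 := mul_ne_zero hl0 hl0
  have h1 : ∀ᵐ ω ∂((ENNReal.ofReal l * ENNReal.ofReal l) • P2), D a b l (B a b l ω) = ω := by
    rw [← map_D hl (a := a) (b := b)]
    have hm : MeasurableSet {ω : Om | D a b l (B a b l ω) = ω} :=
      measurableSet_eq_fun ((measurable_D a b l).comp (continuous_B a b l).measurable)
        measurable_id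
    rw [ae_map_iff (measurable_D a b l).aemeasurable hm]
    filter_upwards [ae_restrict_mem (measurableSet_sq a b l)] with x hx
    rw [B_D hl hx]
  rwa [Measure.ae_ennreal_smul_measure_iff hc0] at h1

theorem ae_D_T {a b l : ℝ} (hl : 0 < l) (e : Equiv.Perm (ℕ ⊕ ℕ)) :
    ∀ᵐ x ∂(volume.restrict (sq a b l)), D a b l (T a b l e x) = perm e (D a b l x) := by
  have hl0 : ENNReal.ofReal l ≠ 0 := by simpa using hl
  have hc0 : ENNReal.ofReal l * ENNReal.ofReal l ≠ 0 := mul_ne_zero hl0 hl0
  have h1 : ∀ᵐ ω ∂((volume.restrict (sq a b l)).map (perm e ∘ D a b l)),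
      D a b l (B a b l ω) = ω := by
    rw [← Measure.map_map (measurable_perm e) (measurable_D a b l), map_D hl, Measure.map_smul,
      map_perm, Measure.ae_ennreal_smul_measure_iff hc0]
    exact ae_D_B hl
  exact ae_of_ae_map ((measurable_perm e).comp (measurable_D a b l)).aemeasurable h1

theorem ae_T_T {a b l : ℝ} (hl : 0 < l) (e : Equiv.Perm (ℕ ⊕ ℕ)) :
    ∀ᵐ x ∂(volume.restrict (sq a b l)), T a b l e.symm (T a b l e x) = x := by
  filter_upwards [ae_D_T hl e, ae_restrict_mem (measurableSet_sq a b l)] with x hx hx2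
  have h : T a b l e.symm (T a b l e x) = B a b l (perm e.symm (D a b l (T a b l e x))) := rfl
  rw [h, hx]
  have h2 : perm e.symm (perm e (D a b l x)) = D a b l x := by
    funext i
    simp [perm]
  rw [h2, B_D hl hx2]

/-- If the digits number `< N` are fixed, no point moves more than `2^(-N)` times the side. -/
theorem T_near {a b l : ℝ} (hl : 0 < l) (e : Equiv.Perm (ℕ ⊕ ℕ)) (N : ℕ)
    (he : ∀ n < N, e (Sum.inl n) = Sum.inl n ∧ e (Sum.inr n) = Sum.inr n) {x : ℝ × ℝ}
    (hx : x ∈ sq a b l) : ‖T a b l e x - x‖ ≤ l * (2 ^ N)⁻¹ := by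
  have h1 : T a b l e x - x = B a b l (perm e (D a b l x)) - B a b l (D a b l x) := by
    rw [B_D hl hx]; rfl
  rw [h1, Prod.norm_def]
  have h2 : ∀ (c : ℝ) (y z : ℕ → Fin 2), (∀ i < N, y i = z i) →
      ‖(c + l * Real.ofDigits y) - (c + l * Real.ofDigits z)‖ ≤ l * (2 ^ N)⁻¹ := by
    intro c y z h
    have h3 := Real.abs_ofDigits_sub_ofDigits_le h
    have h4 : (c + l * Real.ofDigits y) - (c + l * Real.ofDigits z) =
        l * (Real.ofDigits y - Real.ofDigits z) := by ring
    rw [h4, norm_mul, Real.norm_of_nonneg hl.le, Real.norm_eq_abs]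
    push_cast at h3
    exact mul_le_mul_of_nonneg_left h3 hl.le
  refine max_le ?_ ?_
  · refine h2 a _ _ fun i hi => ?_
    simp only [perm, (he i hi).1]
  · refine h2 b _ _ fun i hi => ?_
    simp only [perm, (he i hi).2]

end Pool.Agent.H309.RE
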