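import Pool.Agent.H309.RE.Approx
import Pool.Graph.R_pool_sql_team_seeded_3997aac3.Results.MP_5ab805_an.LowRank
set_option autoImplicit false

/-! The extension estimate for one rearranged function. -/

namespace Pool.Agent.H309.RE

open MeasureTheory Set Filter
open scoped ENNReal NNReal Topology

open Pool.Agent.Results.MP_5ab805_an.LowRank (ext J RankLE)

/-- Differences of consecutive terms. -/
def tel (w : ℕ → ℂ) : ℕ → ℂ
  | 0 => w 0
  | i + 1 => w (i + 1) - w i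

theorem sum_tel (w : ℕ → ℂ) (n : ℕ) : ∑ i ∈ Finset.range (n + 1), tel w i = w n := by
  induction n with
  | zero => simp [tel]
  | succ n ih => rw [Finset.sum_range_succ, ih, tel]; ring

theorem hasSum_tel {z : ℂ} {w : ℕ → ℂ} (h : ∑' i, ‖z - w i‖ₑ ≠ ∞) : HasSum (tel w) z := by
  have h1 : Summable (fun i => ‖z - w i‖) := by
    have h2 : Summable (fun i => ‖z - w i‖₊) := ENNReal.tsum_coe_ne_top_iff_summable.1 h
    exact NNReal.summable_coe.2 h2
  have h2 : Summable (fun i => ‖tel w i‖) := by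
    rw [← summable_nat_add_iff 1]
    refine Summable.of_nonneg_of_le (fun i => norm_nonneg _) (fun i => ?_)
      (h1.add ((summable_nat_add_iff 1).2 h1))
    rw [tel]
    calc ‖w (i + 1) - w i‖ = ‖(z - w i) - (z - w (i + 1))‖ := by congr 1; ring
      _ ≤ _ := norm_sub_le _ _
  have h3 : Tendsto w atTop (𝓝 z) := by
    have h4 := h1.tendsto_atTop_zero
    have h5 := tendsto_zero_iff_norm_tendsto_zero.2 h4
    have h6 := (tendsto_const_nhds (x := z)).sub h5
    simpa using h6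
  rw [hasSum_iff_tendsto_nat_of_summable_norm h2]
  rw [← tendsto_add_atTop_iff_nat 1]
  simpa only [sum_tel] using h3

/-- The rank of the rearranged step functions. -/
theorem rankLE {a b l : ℝ} (ha : -(1 / 2) ≤ a) (ha' : a + l ≤ 1 / 2) (hb : -(1 / 2) ≤ b)
    (hb' : b + l ≤ 1 / 2) (hl : 0 < l) {n M : ℕ} {e : Equiv.Perm (ℕ ⊕ ℕ)}
    (he : Good e n M) {g : ℝ × ℝ → ℂ} (hg : Step a b l n g) :
    RankLE (2 ^ M) 1 0 ((sq a b l).indicator (fun x => g (T a b l e x))) := by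
  obtain ⟨α, β, hα, hβ, hα0, hβ0, h⟩ := hg.lowrank hl he
  refine ⟨α, β, hα, hβ, ?_⟩
  filter_upwards [h] with x hx
  rw [hx]
  have e1 : (1 * x.1 + 0 * x.2, -0 * x.1 + 1 * x.2) = x := by
    ext <;> simp
  rw [e1]
  by_cases hxJ : x ∈ J ×ˢ J
  · rw [indicator_of_mem hxJ]
  · rw [indicator_of_notMem hxJ]
    apply Finset.sum_eq_zero
    intro i _
    by_cases hx1 : x.1 ∈ Ico a (a + l)
    · have hx2 : x.2 ∉ Ico b (b + l) := by
        intro h2
        apply hxJ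
        refine ⟨⟨?_, ?_⟩, ⟨?_, ?_⟩⟩
        · linarith [hx1.1]
        · linarith [hx1.2]
        · linarith [h2.1]
        · linarith [h2.2]
      rw [hβ0 i _ hx2, mul_zero]
    · rw [hα0 i _ hx1, zero_mul]

theorem eLpNorm_ind_T {a b l : ℝ} (hl : 0 < l) (e : Equiv.Perm (ℕ ⊕ ℕ)) {g : ℝ × ℝ → ℂ}
    (hg : AEStronglyMeasurable g (volume.restrict (sq a b l))) (p : ℝ≥0∞) :
    eLpNorm ((sq a b l).indicator (fun x => g (T a b l e x))) p volume =
      eLpNorm g p (volume.restrict (sq a b l)) := by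
  rw [eLpNorm_indicator_eq_eLpNorm_restrict (measurableSet_sq a b l)]
  exact eLpNorm_comp_measurePreserving hg (T_mp hl e)

theorem one_function {a b l : ℝ} (ha : -(1 / 2) ≤ a) (ha' : a + l ≤ 1 / 2) (hb : -(1 / 2) ≤ b)
    (hb' : b + l ≤ 1 / 2) (hl : 0 < l) (hl1 : l ≤ 1) {e : Equiv.Perm (ℕ ⊕ ℕ)} (N : ℕ)
    (lev : ℕ → ℕ) (hmono : Monotone lev) (hlev : ∀ i, Good e (lev i) (N + i))
    {f : ℝ × ℝ → ℂ} (hf : MemLp f 3 (volume.restrict (sq a b l))) {ε : ℝ} (hε : 0 < ε)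
    (G : ℕ → ℝ × ℝ → ℂ) (hG : ∀ i, Step a b l (lev i) (G i))
    (hGf : ∀ i, eLpNorm (fun x => f x - G i x) 3 (volume.restrict (sq a b l)) ≤
      ENNReal.ofReal (ε / 8 ^ (i + 1)))
    (q κ : ℝ) (hκ1 : κ ≤ 1) (C : ℝ≥0)
    (hC : ∀ (r : ℕ → ℕ) (c s : ℕ → ℝ) (h : ℕ → ℝ × ℝ → ℂ) (f : ℝ × ℝ → ℂ),
      (∀ k, 1 ≤ r k) → (∀ k, c k ^ 2 + s k ^ 2 = 1) →
      (∀ k, RankLE (r k) (c k) (s k) (h k)) → (∀ᵐ x, f x = ∑' k, h k x) →
      eLpNorm (ext f) (ENNReal.ofReal q) volume ≤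
        C * ∑' k, ENNReal.ofReal ((r k : ℝ) ^ κ) * eLpNorm (h k) 3 volume) :
    eLpNorm (ext ((sq a b l).indicator (fun x => f (T a b l e x)))) (ENNReal.ofReal q) volume ≤
      C * (ENNReal.ofReal (((2 : ℝ) ^ N) ^ κ) *
        (eLpNorm f 3 (volume.restrict (sq a b l)) + ENNReal.ofReal ε)) := by
  set μ : Measure (ℝ × ℝ) := volume.restrict (sq a b l) with hμ
  have hμ1 : μ univ ≤ 1 := by
    rw [hμ, Measure.restrict_apply_univ]; exact vol_sq_le hl hl1
  have hGm : ∀ i, Measurable (G i) := fun i => (hG i).measurable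
  set g : ℕ → ℝ × ℝ → ℂ := fun i y => tel (fun j => G j y) i with hg
  have hg0 : g 0 = G 0 := rfl
  have hgs : ∀ i, g (i + 1) = fun y => G (i + 1) y - G i y := fun i => rfl
  have hgS : ∀ i, Step a b l (lev i) (g i) := by
    intro i
    rcases i with _ | i
    · exact hG 0
    · rw [hgs]
      exact (hG (i + 1)).sub ((hG i).mono (hmono (Nat.le_succ i)))
  set h : ℕ → ℝ × ℝ → ℂ := fun i => (sq a b l).indicator (fun x => g i (T a b l e x)) with hh
  have h8 : ∀ i : ℕ, (0 : ℝ) < ε / 8 ^ (i + 1) := fun i => by positivity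
  -- the sum
  have hfG : ∀ i, AEStronglyMeasurable (fun x => f x - G i x) μ := fun i =>
    hf.1.sub (hGm i).aestronglyMeasurable
  have hfGe : ∀ i, AEMeasurable (fun x => ‖f x - G i x‖ₑ) μ := fun i => (hfG i).enorm
  have hsum1 : ∫⁻ x, ∑' i, ‖f x - G i x‖ₑ ∂μ ≠ ∞ := by
    rw [lintegral_tsum hfGe]
    have h1 : ∀ i, ∫⁻ x, ‖f x - G i x‖ₑ ∂μ ≤ ENNReal.ofReal (ε / 8 ^ (i + 1)) := by
      intro i
      rw [← eLpNorm_one_eq_lintegral_enorm]
      refine (eLpNorm_le_eLpNorm_mul_rpow_measure_univ (by norm_num : (1 : ℝ≥0∞) ≤ 3)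
        (hfG i)).trans ?_
      calc _ ≤ ENNReal.ofReal (ε / 8 ^ (i + 1)) *
            1 ^ (1 / (1 : ℝ≥0∞).toReal - 1 / (3 : ℝ≥0∞).toReal) := by
            gcongr
            · exact hGf i
            · norm_num
        _ = _ := by rw [ENNReal.one_rpow, mul_one]
    refine ne_top_of_le_ne_top ?_ (ENNReal.tsum_le_tsum h1)
    have h2 : Summable (fun i : ℕ => ε / 8 ^ (i + 1)) := by
      have h3 : Summable (fun i : ℕ => (ε / 8) * (1 / 8 : ℝ) ^ i) :=
        (summable_geometric_of_lt_one (by norm_num) (by norm_num)).mul_left _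
      refine h3.congr fun i => ?_
      rw [pow_succ, one_div, inv_pow]
      field_simp
    rw [← ENNReal.ofReal_tsum_of_nonneg (fun i => (h8 i).le) h2]
    exact ENNReal.ofReal_ne_top
  have hsum2 : ∀ᵐ x ∂μ, ∑' i, ‖f x - G i x‖ₑ ≠ ∞ := by
    have hmeas : AEMeasurable (fun x => ∑' i, ‖f x - G i x‖ₑ) μ :=
      AEMeasurable.tsum hfGe
    filter_upwards [ae_lt_top' hmeas hsum1] with x hx
    exact hx.ne
  have hsum3 : ∀ᵐ x ∂μ, HasSum (fun i => g i (T a b l e x)) (f (T a b l e x)) := by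
    filter_upwards [(T_mp hl e).quasiMeasurePreserving.ae hsum2] with x hx
    exact hasSum_tel hx
  have hsum : ∀ᵐ x : ℝ × ℝ, (sq a b l).indicator (fun x => f (T a b l e x)) x = ∑' i, h i x := by
    rw [hμ, ae_restrict_iff' (measurableSet_sq a b l)] at hsum3
    filter_upwards [hsum3] with x hx
    by_cases hxs : x ∈ sq a b l
    · rw [indicator_of_mem hxs]
      simp only [hh, indicator_of_mem hxs]
      exact (hx hxs).tsum_eq.symm
    · rw [indicator_of_notMem hxs]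
      simp only [hh, indicator_of_notMem hxs, tsum_zero]
  -- the norms
  have hn : ∀ i, eLpNorm (h i) 3 volume = eLpNorm (g i) 3 μ := fun i =>
    eLpNorm_ind_T hl e (hgS i).measurable.aestronglyMeasurable 3
  have hn0 : eLpNorm (h 0) 3 volume ≤ eLpNorm f 3 μ + ENNReal.ofReal (ε / 8) := by
    rw [hn, hg0]
    have h1 : G 0 = (fun x => f x) - (fun x => f x - G 0 x) := by funext x; simp
    rw [h1]
    refine (eLpNorm_sub_le hf.1 (hfG 0) (by norm_num)).trans ?_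
    have h2 := hGf 0
    rw [zero_add, pow_one] at h2
    exact add_le_add le_rfl h2
  have hns : ∀ i, eLpNorm (h (i + 1)) 3 volume ≤ ENNReal.ofReal (2 * (ε / 8 ^ (i + 1))) := by
    intro i
    rw [hn, hgs]
    have h1 : (fun y => G (i + 1) y - G i y) =
        (fun x => f x - G i x) - (fun x => f x - G (i + 1) x) := by
      funext x; simp only [Pi.sub_apply]; ring
    rw [h1]
    refine (eLpNorm_sub_le (hfG i) (hfG (i + 1)) (by norm_num)).trans ?_
    refine (add_le_add (hGf i) (hGf (i + 1))).trans ?_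
    rw [← ENNReal.ofReal_add (h8 i).le (h8 (i + 1)).le]
    apply ENNReal.ofReal_le_ofReal
    have h2 : ε / 8 ^ (i + 1 + 1) ≤ ε / 8 ^ (i + 1) := by
      gcongr <;> norm_num
    linarith
  have hr : ∀ i : ℕ, ENNReal.ofReal ((((2 ^ (N + i) : ℕ) : ℝ)) ^ κ) ≤
      ENNReal.ofReal (((2 : ℝ) ^ N) ^ κ) * ENNReal.ofReal (2 ^ i) := by
    intro i
    rw [← ENNReal.ofReal_mul (by positivity)]
    apply ENNReal.ofReal_le_ofReal
    push_cast
    rw [pow_add, Real.mul_rpow (by positivity) (by positivity)]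
    gcongr
    have h1 : (1 : ℝ) ≤ 2 ^ i := one_le_pow₀ (by norm_num)
    calc ((2 : ℝ) ^ i) ^ κ ≤ ((2 : ℝ) ^ i) ^ (1 : ℝ) := Real.rpow_le_rpow_of_exponent_le h1 hκ1
      _ = 2 ^ i := Real.rpow_one _
  have hmain := hC (fun i => 2 ^ (N + i)) (fun _ => 1) (fun _ => 0) h
    ((sq a b l).indicator (fun x => f (T a b l e x))) (fun i => Nat.one_le_two_pow)
    (fun i => by norm_num) (fun i => rankLE ha ha' hb hb' hl (hlev i) (hgS i)) hsum
  refine hmain.trans ?_
  gcongr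
  have hb1 : ∀ i : ℕ, ENNReal.ofReal ((((2 ^ (N + i) : ℕ) : ℝ)) ^ κ) * eLpNorm (h i) 3 volume ≤
      ENNReal.ofReal (((2 : ℝ) ^ N) ^ κ) * (ENNReal.ofReal (2 ^ i) * eLpNorm (h i) 3 volume) := by
    intro i
    rw [← mul_assoc]
    gcongr
    exact hr i
  refine (ENNReal.tsum_le_tsum hb1).trans ?_
  rw [ENNReal.tsum_mul_left]
  gcongr
  rw [tsum_eq_zero_add' ENNReal.summable]
  have hb2 : ∀ i : ℕ, ENNReal.ofReal (2 ^ (i + 1)) * eLpNorm (h (i + 1)) 3 volume ≤
      ENNReal.ofReal ((ε / 2) * (1 / 4 : ℝ) ^ i) := by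
    intro i
    calc _ ≤ ENNReal.ofReal (2 ^ (i + 1)) * ENNReal.ofReal (2 * (ε / 8 ^ (i + 1))) := by
          gcongr; exact hns i
      _ = ENNReal.ofReal (2 ^ (i + 1) * (2 * (ε / 8 ^ (i + 1)))) :=
          (ENNReal.ofReal_mul (by positivity)).symm
      _ = _ := by
          congr 1
          have h3 : (8 : ℝ) ^ (i + 1) = 2 ^ (i + 1) * 4 ^ (i + 1) := by
            rw [← mul_pow]; norm_num
          rw [h3, one_div, inv_pow, pow_succ 4 i]
          field_simp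
          ring
  have hgeo : HasSum (fun i : ℕ => (ε / 2) * (1 / 4 : ℝ) ^ i) ((ε / 2) * (1 - 1 / 4)⁻¹) :=
    (hasSum_geometric_of_lt_one (by norm_num) (by norm_num)).mul_left _
  have hb3 : ∑' i : ℕ, ENNReal.ofReal (2 ^ (i + 1)) * eLpNorm (h (i + 1)) 3 volume ≤
      ENNReal.ofReal ((ε / 2) * (1 - 1 / 4)⁻¹) := by
    refine (ENNReal.tsum_le_tsum hb2).trans ?_
    rw [← ENNReal.ofReal_tsum_of_nonneg (fun i => by positivity) hgeo.summable, hgeo.tsum_eq]
  calc _ ≤ (eLpNorm f 3 μ + ENNReal.ofReal (ε / 8)) +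
        ENNReal.ofReal ((ε / 2) * (1 - 1 / 4)⁻¹) := by
        refine add_le_add ?_ hb3
        rw [pow_zero, ENNReal.ofReal_one, one_mul]
        exact hn0
    _ ≤ _ := by
        rw [add_assoc, ← ENNReal.ofReal_add (by positivity) (by positivity)]
        gcongr
        norm_num
        linarith

end Pool.Agent.H309.RE
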