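import Mathlib
set_option autoImplicit false

/-! A permutation of the digits of a pair of numbers: the digits of the second number are
distributed sparsely, all other digits come from the first number. -/

namespace Pool.Agent.H309.RE

open Set

theorem perm_base (n : ℕ → ℕ) (hn : StrictMono n) : ∃ e : Equiv.Perm (ℕ ⊕ ℕ),
    (∀ i, ∃ k, e (Sum.inl i) = Sum.inl k) ∧
    ∀ j, ∀ i < n j, (∃ k, e (Sum.inr i) = Sum.inl k) ∨ ∃ k < j, e (Sum.inr i) = Sum.inr k := by
  classical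
  set g : ℕ → ℕ ⊕ ℕ := fun m => Sum.inr (n m) with hg
  have hgi : Function.Injective g := fun x y h => hn.injective (Sum.inr_injective h)
  set s : Set (ℕ ⊕ ℕ) := range g with hs
  have hl : ∀ k : ℕ, (Sum.inl k : ℕ ⊕ ℕ) ∈ sᶜ := by
    rintro k ⟨m, hm⟩
    exact absurd hm (by simp [hg])
  haveI : Infinite ↥sᶜ := Infinite.of_injective (fun k : ℕ => (⟨Sum.inl k, hl k⟩ : ↥sᶜ))
    (fun x y h => Sum.inl_injective (Subtype.ext_iff.1 h))
  obtain ⟨hd⟩ := nonempty_denumerable ↥sᶜ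
  let e2 : ↥sᶜ ≃ ℕ := Denumerable.eqv ↥sᶜ
  let e1 : ↥s ≃ ℕ := (Equiv.ofInjective g hgi).symm
  let e : Equiv.Perm (ℕ ⊕ ℕ) :=
    (Equiv.Set.sumCompl s).symm.trans ((Equiv.sumCongr e1 e2).trans (Equiv.sumComm ℕ ℕ))
  have he1 : ∀ x (hx : x ∈ s), e x = Sum.inr (e1 ⟨x, hx⟩) := by
    intro x hx
    simp only [e, Equiv.trans_apply, Equiv.Set.sumCompl_symm_apply_of_mem hx]
    rfl
  have he2 : ∀ x (hx : x ∉ s), e x = Sum.inl (e2 ⟨x, hx⟩) := by
    intro x hx
    simp only [e, Equiv.trans_apply, Equiv.Set.sumCompl_symm_apply_of_notMem hx]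
    rfl
  refine ⟨e, fun i => ⟨_, he2 _ (hl i)⟩, ?_⟩
  intro j i hi
  by_cases hx : (Sum.inr i : ℕ ⊕ ℕ) ∈ s
  · right
    refine ⟨_, ?_, he1 _ hx⟩
    obtain ⟨m, hm⟩ := hx
    have h1 : (⟨Sum.inr i, ⟨m, hm⟩⟩ : ↥s) = Equiv.ofInjective g hgi m := Subtype.ext hm.symm
    have h2 : e1 ⟨Sum.inr i, ⟨m, hm⟩⟩ = m := by
      rw [h1]
      exact (Equiv.ofInjective g hgi).symm_apply_apply m
    rw [h2]
    have h3 : n m = i := Sum.inr_injective hm
    rw [← h3] at hi
    exact hn.lt_iff_lt.1 hi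
  · left
    exact ⟨_, he2 _ hx⟩

/-- The digits with the numbers `≥ N`. -/
def late (N : ℕ) : ℕ ⊕ ℕ → Prop := Sum.elim (fun k => N ≤ k) (fun k => N ≤ k)

/-- Shift by `N`. -/
def shiftE (N : ℕ) : ℕ ⊕ ℕ ≃ {i // late N i} where
  toFun i := match i with
    | Sum.inl k => ⟨Sum.inl (k + N), Nat.le_add_left _ _⟩
    | Sum.inr k => ⟨Sum.inr (k + N), Nat.le_add_left _ _⟩
  invFun i := match i with
    | ⟨Sum.inl k, _⟩ => Sum.inl (k - N)
    | ⟨Sum.inr k, _⟩ => Sum.inr (k - N)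
  left_inv i := by
    rcases i with k | k
    · simp
    · simp
  right_inv i := by
    rcases i with ⟨k | k, hk⟩
    · have h : k - N + N = k := Nat.sub_add_cancel hk
      simp only [h]
    · have h : k - N + N = k := Nat.sub_add_cancel hk
      simp only [h]

theorem perm_exists (N : ℕ) (n : ℕ → ℕ) (hn : StrictMono n) (hN : N ≤ n 0) :
    ∃ e : Equiv.Perm (ℕ ⊕ ℕ),
    (∀ i < N, e (Sum.inl i) = Sum.inl i ∧ e (Sum.inr i) = Sum.inr i) ∧
    ∀ j, ∀ i < n j, (∃ k, e (Sum.inl i) = Sum.inl k) ∧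
      ((∃ k, e (Sum.inr i) = Sum.inl k) ∨ ∃ k < N + j, e (Sum.inr i) = Sum.inr k) := by
  classical
  have hN' : ∀ j, N ≤ n j := fun j => hN.trans (hn.monotone (Nat.zero_le j))
  obtain ⟨e0, h1, h2⟩ := perm_base (fun j => n j - N) (by
    intro i j hij
    have h1 := hn hij
    have h2 := hN' i
    simp only
    omega)
  have hin : ∀ i < N, ¬ late N (Sum.inl i) := fun i hi h => absurd hi (not_lt.2 h)
  have hinr : ∀ i < N, ¬ late N (Sum.inr i) := fun i hi h => absurd hi (not_lt.2 h)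
  refine ⟨e0.extendDomain (shiftE N), fun i hi => ⟨?_, ?_⟩, ?_⟩
  · exact Equiv.Perm.extendDomain_apply_not_subtype _ _ (hin i hi)
  · exact Equiv.Perm.extendDomain_apply_not_subtype _ _ (hinr i hi)
  · intro j i hi
    constructor
    · by_cases hiN : i < N
      · exact ⟨i, Equiv.Perm.extendDomain_apply_not_subtype _ _ (hin i hiN)⟩
      · push Not at hiN
        obtain ⟨k, hk⟩ := h1 (i - N)
        have h3 : ((shiftE N (Sum.inl (i - N)) : {i // late N i}) : ℕ ⊕ ℕ) = Sum.inl i := by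
          simp only [shiftE, Equiv.coe_fn_mk]
          rw [Nat.sub_add_cancel hiN]
        refine ⟨k + N, ?_⟩
        rw [← h3, Equiv.Perm.extendDomain_apply_image, hk]
        rfl
    · by_cases hiN : i < N
      · right
        exact ⟨i, by omega, Equiv.Perm.extendDomain_apply_not_subtype _ _ (hinr i hiN)⟩
      · push Not at hiN
        have h3 : ((shiftE N (Sum.inr (i - N)) : {i // late N i}) : ℕ ⊕ ℕ) = Sum.inr i := by
          simp only [shiftE, Equiv.coe_fn_mk]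
          rw [Nat.sub_add_cancel hiN]
        rcases h2 j (i - N) (by omega) with ⟨k, hk⟩ | ⟨k, hkj, hk⟩
        · left
          refine ⟨k + N, ?_⟩
          rw [← h3, Equiv.Perm.extendDomain_apply_image, hk]
          rfl
        · right
          refine ⟨k + N, by omega, ?_⟩
          rw [← h3, Equiv.Perm.extendDomain_apply_image, hk]
          rfl

end Pool.Agent.H309.RE
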