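import Pool.Agent.H309.RE.Final
set_option autoImplicit false

/-! A uniform bound for the rearranged functions of a dense set gives the bound for all
functions. -/

namespace Pool.Agent.H309.RE

open MeasureTheory Set Filter
open scoped ENNReal NNReal Topology

open Pool.Agent.Results.MP_5ab805_an

theorem eLpNorm_one_le {μ : Measure (ℝ × ℝ)} (hμ : μ univ ≤ 1) {F : ℝ × ℝ → ℂ}
    (hF : AEStronglyMeasurable F μ) : eLpNorm F 1 μ ≤ eLpNorm F 3 μ := by
  refine (eLpNorm_le_eLpNorm_mul_rpow_measure_univ (by norm_num : (1 : ℝ≥0∞) ≤ 3) hF).trans ?_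
  have h1 : μ univ ^ (1 / (1 : ℝ≥0∞).toReal - 1 / (3 : ℝ≥0∞).toReal) ≤ 1 :=
    ENNReal.rpow_le_one hμ (by norm_num)
  calc _ ≤ eLpNorm F 3 μ * 1 := by gcongr
    _ = _ := mul_one _

theorem ext_measurable {f : ℝ × ℝ → ℂ} (hf : AEStronglyMeasurable f volume) :
    AEStronglyMeasurable (LowRank.ext f) volume := by
  unfold LowRank.ext
  have h1 : AEStronglyMeasurable (fun z : ((ℝ × ℝ) × ℝ) × (ℝ × ℝ) =>
      Complex.exp (-(Complex.I * ((z.2.1 * z.1.1.1 + z.2.2 * z.1.1.2 +
        (z.2.1 ^ 2 + z.2.2 ^ 2) * z.1.2 : ℝ) : ℂ))) * f z.2)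
      ((volume : Measure ((ℝ × ℝ) × ℝ)).prod (volume : Measure (ℝ × ℝ))) := by
    refine AEStronglyMeasurable.mul ?_ ?_
    · apply Continuous.aestronglyMeasurable
      fun_prop
    · exact hf.comp_quasiMeasurePreserving Measure.quasiMeasurePreserving_snd
  exact h1.integral_prod_right'

theorem ext_sub_le {F G : ℝ × ℝ → ℂ} (hF : Integrable F) (hG : Integrable G)
    (ξ : (ℝ × ℝ) × ℝ) : ‖LowRank.ext F ξ - LowRank.ext G ξ‖ ≤ ∫ x, ‖F x - G x‖ := by
  have hn : ∀ x : ℝ × ℝ, ‖Complex.exp (-(Complex.I * ((x.1 * ξ.1.1 + x.2 * ξ.1.2 +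
      (x.1 ^ 2 + x.2 ^ 2) * ξ.2 : ℝ) : ℂ)))‖ = 1 := by
    intro x
    have h1 : -(Complex.I * ((x.1 * ξ.1.1 + x.2 * ξ.1.2 + (x.1 ^ 2 + x.2 ^ 2) * ξ.2 : ℝ) : ℂ)) =
        ((-(x.1 * ξ.1.1 + x.2 * ξ.1.2 + (x.1 ^ 2 + x.2 ^ 2) * ξ.2) : ℝ) : ℂ) * Complex.I := by
      push_cast
      ring
    rw [h1, Complex.norm_exp_ofReal_mul_I]
  have hm : AEStronglyMeasurable (fun x : ℝ × ℝ => Complex.exp (-(Complex.I *
      ((x.1 * ξ.1.1 + x.2 * ξ.1.2 + (x.1 ^ 2 + x.2 ^ 2) * ξ.2 : ℝ) : ℂ)))) volume := by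
    apply Continuous.aestronglyMeasurable
    fun_prop
  have hi : ∀ {H : ℝ × ℝ → ℂ}, Integrable H → Integrable (fun x : ℝ × ℝ =>
      Complex.exp (-(Complex.I * ((x.1 * ξ.1.1 + x.2 * ξ.1.2 +
        (x.1 ^ 2 + x.2 ^ 2) * ξ.2 : ℝ) : ℂ))) * H x) := by
    intro H hH
    refine Integrable.bdd_mul hH hm (c := 1) ?_
    exact Eventually.of_forall fun x => (hn x).le
  unfold LowRank.ext
  rw [← integral_sub (hi hF) (hi hG)]
  refine (norm_integral_le_integral_norm _).trans (le_of_eq ?_)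
  congr 1
  funext x
  rw [← mul_sub, norm_mul, hn, one_mul]

theorem sharp {a b l : ℝ} (hl : 0 < l) (hl1 : l ≤ 1) {T S : ℝ × ℝ → ℝ × ℝ}
    (hT : MeasurePreserving T (volume.restrict (sq a b l)) (volume.restrict (sq a b l)))
    (hS : MeasurePreserving S (volume.restrict (sq a b l)) (volume.restrict (sq a b l)))
    (hST : ∀ᵐ x ∂(volume.restrict (sq a b l)), S (T x) = x)
    (V : Set (ℝ × ℝ → ℂ)) (hV1 : ∀ f ∈ V, MemLp f 3 (volume.restrict (sq a b l)))
    (hV : ∀ g, MemLp g 3 (volume.restrict (sq a b l)) → ∀ η : ℝ, 0 < η →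
      ∃ f ∈ V, eLpNorm (fun x => f x - g x) 3 (volume.restrict (sq a b l)) ≤ ENNReal.ofReal η)
    (q : ℝ≥0∞) (c : ℝ≥0)
    (h : ∀ f ∈ V, eLpNorm (LowRank.ext ((sq a b l).indicator (fun x => f (T x)))) q volume ≤
      c * eLpNorm f 3 (volume.restrict (sq a b l)))
    (g : ℝ × ℝ → ℂ) (hg : MemLp g 3 (volume.restrict (sq a b l))) :
    eLpNorm (LowRank.ext ((sq a b l).indicator g)) q volume ≤
      c * eLpNorm g 3 (volume.restrict (sq a b l)) := by
  set μ : Measure (ℝ × ℝ) := volume.restrict (sq a b l) with hμ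
  have hμ1 : μ univ ≤ 1 := by
    rw [hμ, Measure.restrict_apply_univ]; exact vol_sq_le hl hl1
  have : IsFiniteMeasure μ := ⟨hμ1.trans_lt ENNReal.one_lt_top⟩
  have hgS : MemLp (fun x => g (S x)) 3 μ := hg.comp_measurePreserving hS
  set f : ℝ × ℝ → ℂ := fun x => g (S x) with hf
  have hch : ∀ n : ℕ, ∃ w ∈ V, eLpNorm (fun x => w x - f x) 3 μ ≤
      ENNReal.ofReal (1 / ((n : ℝ) + 1)) := fun n => hV f hgS _ (by positivity)
  choose w hw hwf using hch
  have hwm : ∀ n, MemLp (w n) 3 μ := fun n => hV1 _ (hw n)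
  have hsmall : Tendsto (fun n : ℕ => ENNReal.ofReal (1 / ((n : ℝ) + 1))) atTop (𝓝 0) := by
    have h1 := (ENNReal.continuous_ofReal.tendsto 0).comp
      (tendsto_one_div_add_atTop_nhds_zero_nat (𝕜 := ℝ))
    rw [ENNReal.ofReal_zero] at h1
    exact h1
  -- the `L³` distance
  have hd : Tendsto (fun n => eLpNorm (fun x => w n x - f x) 3 μ) atTop (𝓝 0) :=
    tendsto_of_tendsto_of_tendsto_of_le_of_le tendsto_const_nhds hsmall (fun _ => zero_le) hwf
  have hgn : eLpNorm f 3 μ = eLpNorm g 3 μ := eLpNorm_comp_measurePreserving hg.1 hS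
  have hfT : (fun x => f (T x)) =ᵐ[μ] g := by
    filter_upwards [hST] with x hx2
    rw [hf]
    simp only [hx2]
  -- indicator functions
  have hwT : ∀ n, MemLp (fun x => w n (T x)) 3 μ := fun n =>
    (hwm n).comp_measurePreserving hT
  have hint : ∀ {F : ℝ × ℝ → ℂ}, MemLp F 3 μ → Integrable ((sq a b l).indicator F) volume := by
    intro F hF
    rw [integrable_indicator_iff (measurableSet_sq a b l)]
    exact (hF.mono_exponent (by norm_num : (1 : ℝ≥0∞) ≤ 3)).integrable (le_refl 1)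
  have hlim : ∀ ξ, Tendsto (fun n => LowRank.ext ((sq a b l).indicator (fun x => w n (T x))) ξ) atTop
      (𝓝 (LowRank.ext ((sq a b l).indicator g) ξ)) := by
    intro ξ
    rw [tendsto_iff_norm_sub_tendsto_zero]
    have hb : ∀ n, ‖LowRank.ext ((sq a b l).indicator (fun x => w n (T x))) ξ -
        LowRank.ext ((sq a b l).indicator g) ξ‖ ≤ (eLpNorm (fun x => w n x - f x) 3 μ).toReal := by
      intro n
      refine (ext_sub_le (hint (hwT n)) (hint hg) ξ).trans ?_
      have e1 : ∫ x, ‖(sq a b l).indicator (fun x => w n (T x)) x - (sq a b l).indicator g x‖ =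
          ∫ x, ‖w n (T x) - g x‖ ∂μ := by
        rw [hμ, ← integral_indicator (measurableSet_sq a b l)]
        congr 1
        funext x
        by_cases hx : x ∈ sq a b l
        · simp only [indicator_of_mem hx]
        · simp only [indicator_of_notMem hx, sub_zero, norm_zero]
      rw [e1]
      have hm : AEStronglyMeasurable (fun x => w n (T x) - g x) μ := (hwT n).1.sub hg.1
      rw [integral_norm_eq_lintegral_enorm hm]
      refine ENNReal.toReal_mono ?_ ?_
      · exact ((hwm n).sub hgS).2.ne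
      · rw [← eLpNorm_one_eq_lintegral_enorm]
        refine (eLpNorm_one_le hμ1 hm).trans ?_
        have e2 : eLpNorm (fun x => w n (T x) - g x) 3 μ =
            eLpNorm (fun x => w n x - f x) 3 μ := by
          have e4 : AEStronglyMeasurable (fun x => w n x - f x) μ :=
            (hwm n).1.sub hgS.1
          have e5 := eLpNorm_comp_measurePreserving (p := 3) e4 hT
          rw [← e5]
          refine eLpNorm_congr_ae ?_
          filter_upwards [hfT] with x hx
          rw [Function.comp, ← hx]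
        exact e2.le
    have hd2 : Tendsto (fun n => (eLpNorm (fun x => w n x - f x) 3 μ).toReal) atTop (𝓝 0) := by
      have h2 := (ENNReal.tendsto_toReal ENNReal.zero_ne_top).comp hd
      rw [ENNReal.toReal_zero] at h2
      exact h2
    exact squeeze_zero (fun n => norm_nonneg _) hb hd2
  have hfat := Lp.eLpNorm_lim_le_liminf_eLpNorm (p := q) (μ := volume)
    (f := fun n => LowRank.ext ((sq a b l).indicator (fun x => w n (T x))))
    (fun n => ext_measurable (hint (hwT n)).1) (LowRank.ext ((sq a b l).indicator g))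
    (Eventually.of_forall hlim)
  refine hfat.trans ?_
  have hwn : ∀ n, eLpNorm (w n) 3 μ ≤ eLpNorm g 3 μ + ENNReal.ofReal (1 / ((n : ℝ) + 1)) := by
    intro n
    have h1 : w n = f + (fun x => w n x - f x) := by funext x; simp
    rw [← hgn]
    calc eLpNorm (w n) 3 μ = eLpNorm (f + (fun x => w n x - f x)) 3 μ := by rw [← h1]
      _ ≤ eLpNorm f 3 μ + eLpNorm (fun x => w n x - f x) 3 μ :=
          eLpNorm_add_le hgS.1 ((hwm n).1.sub hgS.1) (by norm_num)
      _ ≤ _ := add_le_add le_rfl (hwf n)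
  have hlim2 : Tendsto (fun n : ℕ => (c : ℝ≥0∞) * (eLpNorm g 3 μ +
      ENNReal.ofReal (1 / ((n : ℝ) + 1)))) atTop (𝓝 (c * (eLpNorm g 3 μ + 0))) :=
    ENNReal.Tendsto.const_mul (tendsto_const_nhds.add hsmall) (Or.inr ENNReal.coe_ne_top)
  rw [add_zero] at hlim2
  calc _ ≤ atTop.liminf (fun n : ℕ => (c : ℝ≥0∞) * (eLpNorm g 3 μ +
          ENNReal.ofReal (1 / ((n : ℝ) + 1)))) := by
        refine liminf_le_liminf (Eventually.of_forall fun n => ?_) ?_ ?_
        · exact (h (w n) (hw n)).trans (by gcongr; exact hwn n)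
        all_goals isBoundedDefault
    _ = _ := hlim2.liminf_eq

end Pool.Agent.H309.RE
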