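import Pool.Agent.H309.RE.Map
import Pool.Agent.H309.RE.Perm
set_option autoImplicit false

/-! Step functions on dyadic squares, composed with the digit permutations: functions of low
rank. -/

namespace Pool.Agent.H309.RE

open MeasureTheory Set
open scoped ENNReal NNReal

/-- Forget the digits with the numbers `≥ n`. -/
def trunc (n : ℕ) (ω : Om) : Om := fun i => if Sum.elim id id i < n then ω i else 0

theorem measurable_trunc (n : ℕ) : Measurable (trunc n) := by
  refine measurable_pi_iff.2 fun i => ?_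
  unfold trunc
  by_cases h : Sum.elim id id i < n
  · simp only [h, if_true]; exact measurable_pi_apply i
  · simp only [h, if_false]; exact measurable_const

theorem trunc_trunc {n n' : ℕ} (h : n ≤ n') (ω : Om) : trunc n (trunc n' ω) = trunc n ω := by
  funext i
  unfold trunc
  by_cases h1 : Sum.elim id id i < n
  · have h2 : Sum.elim id id i < n' := h1.trans_le h
    simp [h1, h2]
  · simp [h1]

/-- Functions which depend on the first `n` digits of both coordinates only. -/
def Step (a b l : ℝ) (n : ℕ) (g : ℝ × ℝ → ℂ) : Prop :=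
  ∃ H : Om → ℂ, Measurable H ∧ ∀ x, g x = H (trunc n (D a b l x))

theorem Step.mono {a b l : ℝ} {n n' : ℕ} {g : ℝ × ℝ → ℂ} (hg : Step a b l n g) (h : n ≤ n') :
    Step a b l n' g := by
  obtain ⟨H, hH, hg⟩ := hg
  refine ⟨fun ω => H (trunc n ω), hH.comp (measurable_trunc n), fun x => ?_⟩
  rw [hg x]
  simp only [trunc_trunc h]

theorem Step.sub {a b l : ℝ} {n : ℕ} {g g' : ℝ × ℝ → ℂ} (hg : Step a b l n g)
    (hg' : Step a b l n g') : Step a b l n (fun x => g x - g' x) := by
  obtain ⟨H, hH, hg⟩ := hg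
  obtain ⟨H', hH', hg'⟩ := hg'
  refine ⟨fun ω => H ω - H' ω, hH.sub hH', fun x => ?_⟩
  simp only [hg x, hg' x]

theorem Step.measurable {a b l : ℝ} {n : ℕ} {g : ℝ × ℝ → ℂ} (hg : Step a b l n g) :
    Measurable g := by
  obtain ⟨H, hH, hg⟩ := hg
  have h : g = fun x => H (trunc n (D a b l x)) := funext hg
  rw [h]
  exact hH.comp ((measurable_trunc n).comp (measurable_D a b l))

/-- Extension of a finite sequence of digits. -/
def extD {M : ℕ} (c : Fin M → Fin 2) : ℕ → Fin 2 := fun k => if h : k < M then c ⟨k, h⟩ else 0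

/-- A condition on permutations: the first `n` digits of both coordinates of the image are
digits of the first coordinate or the first `M` digits of the second one. -/
def Good (e : Equiv.Perm (ℕ ⊕ ℕ)) (n M : ℕ) : Prop :=
  ∀ i < n, (∃ k, e (Sum.inl i) = Sum.inl k) ∧
    ((∃ k, e (Sum.inr i) = Sum.inl k) ∨ ∃ k < M, e (Sum.inr i) = Sum.inr k)

theorem Good.mono {e : Equiv.Perm (ℕ ⊕ ℕ)} {n M : ℕ} {M' : ℕ} (h : Good e n M) (hM : M ≤ M') :
    Good e n M' := by
  intro i hi
  refine ⟨(h i hi).1, ?_⟩
  rcases (h i hi).2 with h1 | ⟨k, hk, h1⟩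
  · exact Or.inl h1
  · exact Or.inr ⟨k, hk.trans_le hM, h1⟩

theorem trunc_perm {e : Equiv.Perm (ℕ ⊕ ℕ)} {n M : ℕ} (h : Good e n M) (ω ω' : Om)
    (h1 : ∀ k, ω (Sum.inl k) = ω' (Sum.inl k)) (h2 : ∀ k < M, ω (Sum.inr k) = ω' (Sum.inr k)) :
    trunc n (perm e ω) = trunc n (perm e ω') := by
  funext i
  unfold trunc perm
  by_cases hi : Sum.elim id id i < n
  · simp only [hi, if_true]
    rcases i with i | i
    · obtain ⟨k, hk⟩ := (h i hi).1
      rw [hk, h1]
    · rcases (h i hi).2 with ⟨k, hk⟩ | ⟨k, hkM, hk⟩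
      · rw [hk, h1]
      · rw [hk, h2 k hkM]
  · simp only [hi, if_false]

/-- **Step functions of the permuted digits have low rank.** -/
theorem Step.lowrank {a b l : ℝ} (hl : 0 < l) {n M : ℕ} {e : Equiv.Perm (ℕ ⊕ ℕ)}
    (he : Good e n M) {g : ℝ × ℝ → ℂ} (hg : Step a b l n g) :
    ∃ α β : Fin (2 ^ M) → ℝ → ℂ, (∀ i, Measurable (α i)) ∧ (∀ i, Measurable (β i)) ∧
      (∀ i u, u ∉ Ico a (a + l) → α i u = 0) ∧ (∀ i v, v ∉ Ico b (b + l) → β i v = 0) ∧
      ∀ᵐ x : ℝ × ℝ, (sq a b l).indicator (fun x => g (T a b l e x)) x =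
        ∑ i, α i x.1 * β i x.2 := by
  classical
  obtain ⟨H, hH, hg⟩ := hg
  let ψ : Fin (2 ^ M) ≃ (Fin M → Fin 2) := finFunctionFinEquiv.symm
  let α : Fin (2 ^ M) → ℝ → ℂ := fun i => (Ico a (a + l)).indicator
    (fun u => H (trunc n (perm e (Sum.elim (dg a l u) (extD (ψ i))))))
  let β : Fin (2 ^ M) → ℝ → ℂ := fun i => (Ico b (b + l)).indicator
    (fun v => if ∀ k : Fin M, dg b l v k = ψ i k then 1 else 0)
  refine ⟨α, β, ?_, ?_, ?_, ?_, ?_⟩
  · intro i
    refine Measurable.indicator ?_ measurableSet_Ico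
    refine hH.comp ((measurable_trunc n).comp ((measurable_perm e).comp ?_))
    refine measurable_pi_iff.2 fun k => ?_
    rcases k with k | k
    · exact (measurable_pi_apply k).comp (measurable_dg a l)
    · exact measurable_const
  · intro i
    refine Measurable.indicator ?_ measurableSet_Ico
    refine Measurable.ite ?_ measurable_const measurable_const
    have h : {v : ℝ | ∀ k : Fin M, dg b l v k = ψ i k} =
        ⋂ k : Fin M, (fun v => dg b l v k) ⁻¹' {ψ i k} := by
      ext v; simp
    rw [h]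
    exact MeasurableSet.iInter fun k =>
      ((measurable_pi_apply (k : ℕ)).comp (measurable_dg b l)) (measurableSet_singleton _)
  · intro i u hu
    exact indicator_of_notMem hu _
  · intro i v hv
    exact indicator_of_notMem hv _
  · have h1 := ae_D_T (a := a) (b := b) hl e
    rw [ae_restrict_iff' (measurableSet_sq a b l)] at h1
    filter_upwards [h1] with x hx
    by_cases hxs : x ∈ sq a b l
    · rw [indicator_of_mem hxs, hg, hx hxs]
      have hx1 : x.1 ∈ Ico a (a + l) := hxs.1
      have hx2 : x.2 ∈ Ico b (b + l) := hxs.2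
      set c₀ : Fin M → Fin 2 := fun k => dg b l x.2 k with hc₀
      rw [Finset.sum_eq_single (ψ.symm c₀)]
      · simp only [α, β, indicator_of_mem hx1, indicator_of_mem hx2, Equiv.apply_symm_apply]
        rw [if_pos (fun k => rfl), mul_one]
        congr 1
        refine trunc_perm he _ _ (fun k => rfl) (fun k hk => ?_)
        simp only [D, Sum.elim_inr, extD, hk, dite_true, hc₀]
      · intro i _ hi
        have h2 : ¬ ∀ k : Fin M, dg b l x.2 k = ψ i k := by
          intro h3
          apply hi
          rw [Equiv.eq_symm_apply]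
          exact (funext h3).symm
        simp only [β, indicator_of_mem hx2, if_neg h2, mul_zero]
      · intro h; exact absurd (Finset.mem_univ _) h
    · rw [indicator_of_notMem hxs]
      symm
      apply Finset.sum_eq_zero
      intro i _
      by_cases hx1 : x.1 ∈ Ico a (a + l)
      · have hx2 : x.2 ∉ Ico b (b + l) := fun h => hxs ⟨hx1, h⟩
        simp only [β, indicator_of_notMem hx2, mul_zero]
      · simp only [α, indicator_of_notMem hx1, zero_mul]

end Pool.Agent.H309.RE
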